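import Mathlib

/-!
Definitions for prime number races.
-/

set_option autoImplicit false

namespace Pool.Agent.Lib.MP_c04f8f_nt

/-- `π(n; a, b)`: the number of primes `p ≤ n` with `p ≡ a (mod b)`. -/
def primeCount (n a b : ℕ) : ℕ :=
  ((Finset.range (n + 1)).filter (fun p => p.Prime ∧ p ≡ a [MOD b])).card

/-- The class `a` leads the class `a₁` modulo `b` by more than `n ^ θ` for infinitely many `n`. -/
def Leads (b a a₁ : ℕ) (θ : ℝ) : Prop :=
  ∀ N : ℕ, ∃ n : ℕ, N ≤ n ∧ (primeCount n a₁ b : ℝ) + (n : ℝ) ^ θ < primeCount n a b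

/-- The number of square roots of `a` modulo `b`. -/
def sqrtCount (b : ℕ) [NeZero b] (a : ℕ) : ℕ :=
  (Finset.univ.filter fun x : ZMod b => x ^ 2 = (a : ZMod b)).card

open scoped Classical in
/-- The weight of the real point `β` in the race of `a` against `a₁` modulo `b`: the sum over the
Dirichlet characters `χ` modulo `b` of the order of vanishing of `L(s, χ)` at `s = β` times
`Re (χ a - χ a₁)`, plus, at `β = 1/2` only, half the difference of the numbers of square roots
of `a` and of `a₁` modulo `b`. -/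
noncomputable def realZeroWeight (b : ℕ) [NeZero b] (a a₁ : ℕ) (β : ℝ) : ℝ :=
  ∑ χ : DirichletCharacter ℂ b,
      (analyticOrderNatAt (DirichletCharacter.LFunction χ) (β : ℂ) : ℝ) *
        (χ (a : ZMod b) - χ (a₁ : ZMod b)).re +
    if β = 1 / 2 then ((sqrtCount b a : ℝ) - sqrtCount b a₁) / 2 else 0

end Pool.Agent.Lib.MP_c04f8f_nt
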