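import Pool.Agent.Lib.MP_c04f8f_nt.Race

/-!
The real point of the criterion is dominant: all complex points to its right cancel.
Same proof as `criterion` in `Race.lean`, keeping the full conclusion of `main`.
-/

set_option autoImplicit false

open Filter Topology Set Complex DirichletCharacter ComplexConjugate

namespace Pool.Agent.Lib.MP_c04f8f_nt

variable {q : ℕ} [NeZero q]

theorem dominant {a a₁ : ℕ} (ha : a.Coprime q) (ha₁ : a₁.Coprime q) (hne : ¬ a₁ ≡ a [MOD q])
    {θ : ℝ} (hθ : θ < 1 / 2) (h : ¬ Leads q a a₁ θ) :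
    ∃ β ∈ Ico (1 / 2 : ℝ) 1, 0 < realZeroWeight q a a₁ β ∧
      ∀ ρ : ℂ, β < ρ.re → ∑ χ : DirichletCharacter ℂ q,
        (analyticOrderNatAt (LFunction χ) ρ : ℂ) * conj (χ (a : ZMod q) - χ (a₁ : ZMod q)) = 0 := by
  classical
  have hu : IsUnit (a : ZMod q) := (ZMod.isUnit_iff_coprime a q).2 ha
  have hu₁ : IsUnit (a₁ : ZMod q) := (ZMod.isUnit_iff_coprime a₁ q).2 ha₁
  have hne' : (a₁ : ZMod q) ≠ a := fun e => hne ((ZMod.natCast_eq_natCast_iff _ _ _).1 e)
  let c : DirichletCharacter ℂ q → ℂ := fun χ => χ (a : ZMod q)⁻¹ - χ (a₁ : ZMod q)⁻¹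
  have hc : c 1 = 0 := by
    simp only [c, char_inv hu, char_inv hu₁, MulChar.one_apply hu, MulChar.one_apply hu₁, sub_self]
  have hPhi : ∀ x, Phi c x = (((q.totient : ℝ) * ((if (a : ZMod q) = x then 1 else 0) -
      (if (a₁ : ZMod q) = x then 1 else 0)) : ℝ) : ℂ) := fun x => by
    simp only [Phi, c, sub_mul, Finset.sum_sub_distrib, sum_char_inv_mul_char_eq ℂ hu,
      sum_char_inv_mul_char_eq ℂ hu₁]
    split_ifs <;> simp
  have hφ : (0 : ℝ) < q.totient := by exact_mod_cast Nat.totient_pos.2 (NeZero.pos q)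
  have hsum : ∀ n : ℕ, ∑ k ∈ Finset.Icc 1 n, (dP c k).re =
      q.totient * ((primeCount n a q : ℝ) - primeCount n a₁ q) := fun n => by
    rw [primeCount_eq, primeCount_eq, ← Finset.sum_sub_distrib, Finset.mul_sum]
    refine Finset.sum_congr rfl fun k _ => ?_
    rw [dP]
    by_cases hk : k.Prime
    · rw [if_pos hk, hPhi, ofReal_re]
      simp [hk]
    · simp [hk]
  simp only [Leads, not_forall, not_exists, not_and, not_lt] at h
  obtain ⟨N, hN⟩ := h
  obtain ⟨β, h1, h2, h3, h4⟩ := main c hc (fun x => by rw [hPhi, ofReal_im])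
    ⟨a, by rw [hPhi, if_pos rfl, if_neg hne']; simpa using (NeZero.ne q)⟩
    (C := q.totient * (N + 2)) (θ := max θ 0) (le_max_right _ _) (max_lt hθ (by norm_num))
    (fun x hx => by
      rw [hsum, mul_assoc]
      refine mul_le_mul_of_nonneg_left ?_ hφ.le
      have a1 : 1 ≤ x ^ max θ 0 := Real.one_le_rpow hx.le (le_max_right _ _)
      have a2 : (0 : ℝ) ≤ N := Nat.cast_nonneg N
      rcases le_or_gt N ⌊x⌋₊ with hx' | hx'
      · have b1 := hN _ hx'
        have b2 : (1 : ℝ) ≤ ⌊x⌋₊ := by exact_mod_cast Nat.le_floor (by simpa using hx.le)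
        have b3 : ((⌊x⌋₊ : ℕ) : ℝ) ^ θ ≤ x ^ max θ 0 :=
          (Real.rpow_le_rpow_of_exponent_le b2 (le_max_left _ _)).trans
            (Real.rpow_le_rpow (by linarith) (Nat.floor_le (by linarith)) (le_max_right _ _))
        nlinarith
      · have b1 : (primeCount ⌊x⌋₊ a q : ℝ) ≤ N := by
          exact_mod_cast (primeCount_le _ _).trans hx'
        have b2 : (0 : ℝ) ≤ primeCount ⌊x⌋₊ a₁ q := Nat.cast_nonneg _
        nlinarith)
  have hw : ∀ y : ℝ, (resid c y).re = realZeroWeight q a a₁ y := fun y => by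
    rw [resid, realZeroWeight, add_re, re_sum]
    congr 1
    · refine Finset.sum_congr rfl fun χ _ => ?_
      simp only [c, char_inv hu, char_inv hu₁, mul_re, natCast_re, natCast_im, mul_zero, sub_zero,
        sub_re, conj_re]
      ring
    · have e : ((y : ℂ) = 1 / 2) ↔ y = 1 / 2 := by
        rw [← ofReal_inj]
        push_cast
        rfl
      simp only [e]
      split_ifs with hy
      · have e2 : (∑ χ : DirichletCharacter ℂ q, if χ ^ 2 = 1 then c χ else 0) =
            (sqrtCount q a : ℂ) - sqrtCount q a₁ := by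
          rw [sqrtCount, sqrtCount, ← sum_real_chars hu, ← sum_real_chars hu₁,
            ← Finset.sum_sub_distrib]
          refine Finset.sum_congr rfl fun χ _ => ?_
          split_ifs <;> simp [c]
        rw [e2]
        simp
      · simp
  refine ⟨β, ⟨h1, h2⟩, hw β ▸ h3, fun ρ hρ => ?_⟩
  have h5 := h4 ρ hρ
  rw [resid, if_neg (fun e => by
    rw [e] at hρ
    simp only [div_ofNat_re, one_re] at hρ
    linarith), add_zero] at h5
  rw [← h5]
  refine Finset.sum_congr rfl fun χ _ => ?_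
  simp only [c, char_inv hu, char_inv hu₁, map_sub]
  ring

end Pool.Agent.Lib.MP_c04f8f_nt
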