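import Mathlib

-- part Pool.Agent.Lib.MP_c04f8f_nt.Landau
section

/-!
Landau's lemma for Laplace transforms of positive measures: the abscissa of convergence is a
singular point.
-/

set_option autoImplicit false

open MeasureTheory ProbabilityTheory Filter Topology Set Metric
open scoped Nat

namespace Pool.Agent.Lib.MP_c04f8f_nt

theorem integrable_of_hasSum_nonneg {Ω : Type*} [MeasurableSpace Ω] {μ : Measure Ω}
    {u : ℕ → Ω → ℝ} {U : Ω → ℝ} (hu : ∀ n, Integrable (u n) μ) (h0 : ∀ n, 0 ≤ᵐ[μ] u n)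
    (hs : ∀ ω, HasSum (fun n => u n ω) (U ω)) (hU : AEStronglyMeasurable U μ)
    (hsum : Summable fun n => ∫ ω, u n ω ∂μ) : Integrable U μ := by
  refine ⟨hU, ?_⟩
  have hall : ∀ᵐ ω ∂μ, ∀ n, 0 ≤ u n ω := ae_all_iff.2 h0
  have hU0 : 0 ≤ᵐ[μ] U := by
    filter_upwards [hall] with ω hω
    exact (hs ω).nonneg hω
  rw [hasFiniteIntegral_iff_ofReal hU0]
  have h1 : ∫⁻ ω, ENNReal.ofReal (U ω) ∂μ = ∫⁻ ω, ∑' n, ENNReal.ofReal (u n ω) ∂μ := by
    refine lintegral_congr_ae ?_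
    filter_upwards [hall] with ω hω
    rw [← (hs ω).tsum_eq, ENNReal.ofReal_tsum_of_nonneg hω (hs ω).summable]
  rw [h1, lintegral_tsum (fun n => (hu n).1.aemeasurable.ennreal_ofReal)]
  have h2 : ∀ n, ∫⁻ ω, ENNReal.ofReal (u n ω) ∂μ = ENNReal.ofReal (∫ ω, u n ω ∂μ) :=
    fun n => (ofReal_integral_eq_lintegral_ofReal (hu n) (h0 n)).symm
  simp_rw [h2]
  rw [← ENNReal.ofReal_tsum_of_nonneg (fun n => integral_nonneg_of_ae (h0 n)) hsum]
  exact ENNReal.ofReal_lt_top

theorem mem_interior_integrableExpSet {Ω : Type*} [MeasurableSpace Ω] {μ : Measure Ω}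
    {X : Ω → ℝ} {t₀ t : ℝ} (hint : ∀ t < t₀, Integrable (fun ω => Real.exp (t * X ω)) μ)
    (ht : t < t₀) : t ∈ interior (integrableExpSet X μ) :=
  interior_maximal (s := integrableExpSet X μ) (t := Iio t₀) (fun y hy => hint y hy) isOpen_Iio ht

/-- **Landau's lemma.** -/
theorem landau {Ω : Type*} [MeasurableSpace Ω] {μ : Measure Ω} {X : Ω → ℝ}
    (hX0 : 0 ≤ᵐ[μ] X) {t₀ δ : ℝ} (hδ : 0 < δ)
    (hint : ∀ t < t₀, Integrable (fun ω => Real.exp (t * X ω)) μ)
    {F : ℂ → ℂ} (hF : DifferentiableOn ℂ F (ball (t₀ : ℂ) δ))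
    (hEq : ∀ z ∈ ball (t₀ : ℂ) δ, z.re < t₀ → F z = complexMGF X μ z) :
    ∃ t, t₀ < t ∧ Integrable (fun ω => Real.exp (t * X ω)) μ := by
  set t₁ : ℝ := t₀ - δ / 4 with ht₁
  have ht₁lt : t₁ < t₀ := by linarith
  have hmem := mem_interior_integrableExpSet hint ht₁lt
  have hXm : AEMeasurable X μ := aemeasurable_of_mem_interior_integrableExpSet hmem
  have hsub : ball (t₁ : ℂ) (3 * δ / 4) ⊆ ball (t₀ : ℂ) δ := by
    apply ball_subset_ball'
    rw [Complex.dist_eq, ← Complex.ofReal_sub, Complex.norm_real, Real.norm_eq_abs,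
      abs_of_neg (by linarith)]
    linarith
  have hz : ((t₁ + δ / 2 : ℝ) : ℂ) ∈ ball (t₁ : ℂ) (3 * δ / 4) := by
    rw [mem_ball, Complex.dist_eq, ← Complex.ofReal_sub, Complex.norm_real, Real.norm_eq_abs,
      abs_of_pos (by linarith)]
    linarith
  have hT := Complex.hasSum_taylorSeries_on_ball (hF.mono hsub) hz
  have hev : F =ᶠ[𝓝 (t₁ : ℂ)] complexMGF X μ := by
    have h1 : ∀ᶠ z in 𝓝 (t₁ : ℂ), z ∈ ball (t₀ : ℂ) δ :=
      isOpen_ball.mem_nhds (hsub (mem_ball_self (by linarith)))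
    have h2 : ∀ᶠ z in 𝓝 (t₁ : ℂ), z.re < t₀ :=
      (isOpen_lt Complex.continuous_re continuous_const).mem_nhds (by simpa using ht₁lt)
    filter_upwards [h1, h2] with z h1 h2 using hEq z h1 h2
  have hder : ∀ n, iteratedDeriv n F (t₁ : ℂ) =
      ((∫ ω, X ω ^ n * Real.exp (t₁ * X ω) ∂μ : ℝ) : ℂ) := by
    intro n
    rw [hev.iteratedDeriv_eq n, iteratedDeriv_complexMGF (by simpa using hmem) n,
      ← integral_complex_ofReal]
    congr 1
    funext ω
    push_cast
    rfl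
  let u : ℕ → Ω → ℝ := fun n ω => (δ / 2) ^ n / n ! * (X ω ^ n * Real.exp (t₁ * X ω))
  refine ⟨t₁ + δ / 2, by linarith, ?_⟩
  refine integrable_of_hasSum_nonneg (u := u) (fun n => ?_) (fun n => ?_) (fun ω => ?_) ?_ ?_
  · exact (integrable_pow_mul_exp_of_mem_interior_integrableExpSet hmem n).const_mul _
  · filter_upwards [hX0] with ω hω
    have : 0 ≤ X ω := hω
    simp only [u, Pi.zero_apply]
    positivity
  · have h := (NormedSpace.expSeries_div_hasSum_exp (δ / 2 * X ω)).mul_right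
      (Real.exp (t₁ * X ω))
    rw [← Real.exp_eq_exp_ℝ, ← Real.exp_add] at h
    have e1 : (fun n => u n ω) = fun i => (δ / 2 * X ω) ^ i / (i ! : ℝ) * Real.exp (t₁ * X ω) := by
      funext n
      simp only [u, mul_pow]
      ring
    have e2 : (t₁ + δ / 2) * X ω = δ / 2 * X ω + t₁ * X ω := by ring
    rw [e1, e2]
    exact h
  · exact (Real.measurable_exp.comp_aemeasurable (hXm.const_mul _)).aestronglyMeasurable
  · have h := hT.summable
    rw [← Complex.summable_ofReal]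
    refine h.congr fun n => ?_
    rw [hder n]
    simp only [u, integral_const_mul, smul_eq_mul]
    generalize (∫ ω, X ω ^ n * Real.exp (t₁ * X ω) ∂μ) = I
    push_cast
    ring

end Pool.Agent.Lib.MP_c04f8f_nt
end

-- part Pool.Agent.Lib.MP_c04f8f_nt.Osc
section

/-!
An oscillation theorem for Laplace transforms with logarithmic singularities.
-/

set_option autoImplicit false

open MeasureTheory ProbabilityTheory Filter Topology Set Metric Complex

namespace Pool.Agent.Lib.MP_c04f8f_nt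

/-- `M` has at most a simple pole at `ρ`, with residue `r`. -/
def HasRes (M : ℂ → ℂ) (ρ r : ℂ) : Prop :=
  ∃ h : ℂ → ℂ, AnalyticAt ℂ h ρ ∧ ∀ᶠ s in 𝓝[≠] ρ, M s = r / (s - ρ) + h s

theorem HasRes.of_analyticAt {M : ℂ → ℂ} {ρ : ℂ} (h : AnalyticAt ℂ M ρ) : HasRes M ρ 0 :=
  ⟨M, h, Eventually.of_forall fun s => by simp⟩

theorem HasRes.add {M M' : ℂ → ℂ} {ρ r r' : ℂ} (h : HasRes M ρ r) (h' : HasRes M' ρ r') :
    HasRes (fun s => M s + M' s) ρ (r + r') := by
  obtain ⟨g, hg, he⟩ := h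
  obtain ⟨g', hg', he'⟩ := h'
  refine ⟨fun s => g s + g' s, hg.add hg', ?_⟩
  filter_upwards [he, he'] with s h1 h2
  rw [h1, h2]
  ring

theorem HasRes.const_mul {M : ℂ → ℂ} {ρ r : ℂ} (h : HasRes M ρ r) (c : ℂ) :
    HasRes (fun s => c * M s) ρ (c * r) := by
  obtain ⟨g, hg, he⟩ := h
  refine ⟨fun s => c * g s, analyticAt_const.mul hg, ?_⟩
  filter_upwards [he] with s h1
  rw [h1]
  ring

theorem HasRes.sub {M M' : ℂ → ℂ} {ρ r r' : ℂ} (h : HasRes M ρ r) (h' : HasRes M' ρ r') :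
    HasRes (fun s => M s - M' s) ρ (r - r') := by
  have := h.add (h'.const_mul (-1))
  simpa [sub_eq_add_neg] using this

theorem HasRes.sum {ι : Type*} (S : Finset ι) {M : ι → ℂ → ℂ} {ρ : ℂ} {r : ι → ℂ}
    (h : ∀ i ∈ S, HasRes (M i) ρ (r i)) :
    HasRes (fun s => ∑ i ∈ S, M i s) ρ (∑ i ∈ S, r i) := by
  classical
  induction S using Finset.induction_on with
  | empty => simpa using HasRes.of_analyticAt (M := fun _ => 0) analyticAt_const
  | insert i S hi ih =>
    simp only [Finset.sum_insert hi]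
    exact (h i (Finset.mem_insert_self _ _)).add (ih fun j hj => h j (Finset.mem_insert_of_mem hj))

theorem HasRes.congr {M M' : ℂ → ℂ} {ρ r : ℂ} (h : HasRes M ρ r) (he : M =ᶠ[𝓝[≠] ρ] M') :
    HasRes M' ρ r := by
  obtain ⟨g, hg, he'⟩ := h
  refine ⟨g, hg, ?_⟩
  filter_upwards [he, he'] with s h1 h2
  rw [← h1, h2]

theorem HasRes.comp_two_mul {M : ℂ → ℂ} {ρ r : ℂ} (h : HasRes M (2 * ρ) r) :
    HasRes (fun s => M (2 * s)) ρ (r / 2) := by
  obtain ⟨g, hg, he⟩ := h
  refine ⟨fun s => g (2 * s), hg.comp_of_eq (f := fun s : ℂ => 2 * s) (by fun_prop) rfl, ?_⟩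
  have ht : Tendsto (fun s : ℂ => 2 * s) (𝓝[≠] ρ) (𝓝[≠] (2 * ρ)) := by
    refine tendsto_nhdsWithin_iff.2 ⟨?_, ?_⟩
    · exact (Continuous.tendsto (by fun_prop) ρ).mono_left nhdsWithin_le_nhds
    · filter_upwards [self_mem_nhdsWithin] with s hs
      simpa using hs
  filter_upwards [ht.eventually he] with s hs
  rw [hs, ← mul_sub, div_div]

theorem HasRes.meromorphicAt {M : ℂ → ℂ} {ρ r : ℂ} (h : HasRes M ρ r) : MeromorphicAt M ρ := by
  obtain ⟨g, hg, he⟩ := h
  have h1 : MeromorphicAt (fun s => r / (s - ρ) + g s) ρ :=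
    ((MeromorphicAt.const r ρ).div ((MeromorphicAt.id ρ).sub (MeromorphicAt.const ρ ρ))).add
      hg.meromorphicAt
  exact h1.congr (EventuallyEq.symm he)

theorem HasRes.eq_zero {M A : ℂ → ℂ} {ρ r : ℂ} (h : HasRes M ρ r) (hA : AnalyticAt ℂ A ρ)
    (he : M =ᶠ[𝓝[≠] ρ] A) : r = 0 := by
  obtain ⟨g, hg, he'⟩ := h
  have h1 : ContinuousAt (fun s => (s - ρ) * (A s - g s)) ρ :=
    (continuousAt_id.sub continuousAt_const).mul (hA.continuousAt.sub hg.continuousAt)
  have h2 : Tendsto (fun s => (s - ρ) * (A s - g s)) (𝓝[≠] ρ) (𝓝 0) := by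
    simpa using h1.tendsto.mono_left (nhdsWithin_le_nhds (s := {ρ}ᶜ))
  have h3 : (fun s => (s - ρ) * (A s - g s)) =ᶠ[𝓝[≠] ρ] fun _ => r := by
    filter_upwards [he, he', self_mem_nhdsWithin] with s h1 h2 h3
    have : s - ρ ≠ 0 := sub_ne_zero.2 h3
    rw [← h1, h2]
    field_simp
    ring
  exact tendsto_nhds_unique tendsto_const_nhds (h2.congr' h3)

theorem hasRes_logDeriv {f : ℂ → ℂ} {ρ : ℂ} (hf : AnalyticAt ℂ f ρ)
    (ho : analyticOrderAt f ρ ≠ ⊤) : HasRes (logDeriv f) ρ (analyticOrderNatAt f ρ) := by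
  obtain ⟨g, hg, hne, he⟩ := hf.analyticOrderAt_ne_top.1 ho
  refine ⟨logDeriv g, hg.deriv.div hg hne, ?_⟩
  have h1 := (logDeriv_congr_nhds he).filter_mono (nhdsWithin_le_nhds (s := {ρ}ᶜ))
  have h2 := (hg.continuousAt.eventually_ne hne).filter_mono (nhdsWithin_le_nhds (s := {ρ}ᶜ))
  have h3 := hg.eventually_analyticAt.filter_mono (nhdsWithin_le_nhds (s := {ρ}ᶜ))
  filter_upwards [h1, h2, h3, self_mem_nhdsWithin] with s h1 h2 h3 h4
  rw [h1]
  simp only [smul_eq_mul]
  rw [logDeriv_mul (f := fun z => (z - ρ) ^ analyticOrderNatAt f ρ) s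
    (pow_ne_zero _ (sub_ne_zero.2 h4)) h2 (by fun_prop) h3.differentiableAt,
    logDeriv_fun_pow (f := fun s => s - ρ) (by fun_prop), logDeriv_apply]
  simp [div_eq_mul_inv]

theorem nonneg_of_log_bound {a σ u₀ : ℝ} {u : ℝ → ℝ} (hu : Tendsto u (𝓝[>] σ) (𝓝 u₀))
    (h : ∀ᶠ x in 𝓝[>] σ, a * Real.log (x - σ) + u x ≤ 0) : 0 ≤ a := by
  by_contra! ha
  have h1 : Tendsto (fun x : ℝ => x - σ) (𝓝[>] σ) (𝓝[>] 0) := by
    refine tendsto_nhdsWithin_iff.2 ⟨?_, ?_⟩
    · have : Tendsto (fun x : ℝ => x - σ) (𝓝 σ) (𝓝 (σ - σ)) :=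
        Continuous.tendsto (by fun_prop) σ
      rw [sub_self] at this
      exact this.mono_left nhdsWithin_le_nhds
    · filter_upwards [self_mem_nhdsWithin] with x hx
      simpa using hx
  have h2 := ((Real.tendsto_log_nhdsGT_zero.comp h1).const_mul_atBot_of_neg ha).atTop_add hu
  obtain ⟨x, hx1, hx2⟩ := (h.and (h2.eventually_gt_atTop 0)).exists
  exact absurd hx1 (not_le.2 hx2)

section

variable {Ω : Type*} [MeasurableSpace Ω] {μ : Measure Ω} {X : Ω → ℝ} {θ C : ℝ} {P M r : ℂ → ℂ}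

theorem continuation
    (hP : ∀ s : ℂ, 1 < s.re → complexMGF X μ (-s) = C / (s - θ) - P s / s)
    (hM : ∀ s : ℂ, 1 < s.re → deriv P s = M s)
    (hres : ∀ ρ : ℂ, 2 / 5 < ρ.re → HasRes M ρ (r ρ))
    {σ : ℝ} (h1 : 2 / 5 ≤ σ) (h2 : θ ≤ σ) (h3 : σ ≤ 1)
    (hint : ∀ t < -σ, Integrable (fun ω => Real.exp (t * X ω)) μ) {ρ : ℂ} (hρ : σ < ρ.re) :
    AnalyticAt ℂ (fun s => s * (C / (s - θ) - complexMGF X μ (-s))) ρ ∧
      M =ᶠ[𝓝[≠] ρ] deriv (fun s => s * (C / (s - θ) - complexMGF X μ (-s))) := by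
  set Q : ℂ → ℂ := fun s => s * (C / (s - θ) - complexMGF X μ (-s)) with hQ
  have hQa : ∀ ρ : ℂ, σ < ρ.re → AnalyticAt ℂ Q ρ := by
    intro ρ hρ
    have a1 : ρ - θ ≠ 0 := by
      intro h
      have := congrArg re h
      simp only [sub_re, ofReal_re, zero_re] at this
      linarith
    refine analyticAt_id.mul ((analyticAt_const.div (analyticAt_id.sub analyticAt_const) a1).sub ?_)
    exact (analyticAt_complexMGF (mem_interior_integrableExpSet hint
      (by simpa using hρ))).comp_of_eq (f := fun s : ℂ => -s) (by fun_prop) rfl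
  refine ⟨hQa ρ hρ, ?_⟩
  have hmer : MeromorphicOn (fun s => M s - deriv Q s) {s : ℂ | σ < s.re} := fun s hs =>
    (hres s (lt_of_le_of_lt h1 hs)).meromorphicAt.sub (hQa s hs).deriv.meromorphicAt
  have htop : meromorphicOrderAt (fun s => M s - deriv Q s) 2 = ⊤ := by
    rw [meromorphicOrderAt_eq_top_iff]
    have hU : IsOpen {s : ℂ | 1 < s.re} := isOpen_lt continuous_const continuous_re
    have h2 : ∀ᶠ s : ℂ in 𝓝 2, 1 < s.re := hU.mem_nhds (by simp)
    filter_upwards [h2.filter_mono nhdsWithin_le_nhds] with s hs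
    have he : Q =ᶠ[𝓝 s] P := by
      filter_upwards [hU.mem_nhds hs] with w hw
      have hw0 : w ≠ 0 := by
        rintro rfl
        norm_num at hw
      simp only [hQ, hP w hw]
      field_simp
      ring
    rw [he.deriv_eq, hM s hs, sub_self]
  have htop' : meromorphicOrderAt (fun s => M s - deriv Q s) ρ = ⊤ := by
    by_contra h
    exact hmer.meromorphicOrderAt_ne_top_of_isPreconnected
      (convex_halfSpace_re_gt σ).isPreconnected hρ
      (show σ < (2 : ℂ).re by simp only [re_ofNat]; linarith) h htop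
  rw [meromorphicOrderAt_eq_top_iff] at htop'
  filter_upwards [htop'] with s hs using sub_eq_zero.1 hs

theorem boundary (hX0 : 0 ≤ᵐ[μ] X) (hθ0 : 0 ≤ θ)
    (hP : ∀ s : ℂ, 1 < s.re → complexMGF X μ (-s) = C / (s - θ) - P s / s)
    (hM : ∀ s : ℂ, 1 < s.re → deriv P s = M s)
    (hres : ∀ ρ : ℂ, 2 / 5 < ρ.re → HasRes M ρ (r ρ))
    {σ : ℝ} (h1 : 2 / 5 < σ) (h2 : θ < σ) (h3 : σ ≤ 1)
    (hint : ∀ t < -σ, Integrable (fun ω => Real.exp (t * X ω)) μ)
    (hnot : ∀ t, -σ < t → ¬ Integrable (fun ω => Real.exp (t * X ω)) μ) :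
    0 < (r σ).re := by
  set Q : ℂ → ℂ := fun s => s * (C / (s - θ) - complexMGF X μ (-s)) with hQ
  have hc := fun (ρ : ℂ) (hρ : σ < ρ.re) => continuation hP hM hres h1.le h2.le h3 hint hρ
  obtain ⟨h, hh, he⟩ := hres σ (by simpa using h1)
  obtain ⟨δ₀, hδ₀, hball⟩ := Metric.eventually_nhds_iff_ball.1
    ((eventually_nhdsWithin_iff.1 he).and hh.eventually_analyticAt)
  set δ := min δ₀ (σ - θ) with hδ
  have hδpos : 0 < δ := lt_min hδ₀ (by linarith)
  have hsub : ball (σ : ℂ) δ ⊆ ball (σ : ℂ) δ₀ := ball_subset_ball (min_le_left _ _)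
  have hhd : DifferentiableOn ℂ h (ball (σ : ℂ) δ) := fun s hs =>
    (hball s (hsub hs)).2.differentiableAt.differentiableWithinAt
  obtain ⟨K, hK⟩ := hhd.isExactOn_ball
  have hre : ∀ s ∈ ball (σ : ℂ) δ, θ < s.re := fun s hs => by
    have a1 : ‖s - σ‖ < σ - θ := (mem_ball_iff_norm.1 hs).trans_le (min_le_right _ _)
    have a2 := (neg_le_abs _).trans (abs_re_le_norm (s - σ))
    simp only [sub_re, ofReal_re] at a2
    linarith
  have hVo : IsOpen (ball (σ : ℂ) δ ∩ {s : ℂ | σ < s.re}) :=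
    isOpen_ball.inter (isOpen_lt continuous_const continuous_re)
  have hVc : IsPreconnected (ball (σ : ℂ) δ ∩ {s : ℂ | σ < s.re}) :=
    ((convex_ball _ _).inter (convex_halfSpace_re_gt σ)).isPreconnected
  have hder : ∀ s ∈ ball (σ : ℂ) δ ∩ {s : ℂ | σ < s.re},
      HasDerivAt (fun s => Q s - r σ * log (s - σ) - K s) 0 s := by
    intro s hs
    have hne : s - σ ≠ 0 := by
      intro h
      have := congrArg re h
      have h' : σ < s.re := hs.2
      simp only [sub_re, ofReal_re, zero_re] at this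
      linarith
    have a1 : deriv Q s = r σ / (s - σ) + h s := by
      have b1 : Tendsto (deriv Q) (𝓝[≠] s) (𝓝 (deriv Q s)) :=
        (hc s hs.2).1.deriv.continuousAt.tendsto.mono_left nhdsWithin_le_nhds
      have b2 : Tendsto (fun w => r σ / (w - σ) + h w) (𝓝[≠] s) (𝓝 (r σ / (s - σ) + h s)) :=
        ((continuousAt_const.div (continuousAt_id.sub continuousAt_const) hne).add
          (hball s (hsub hs.1)).2.continuousAt).tendsto.mono_left nhdsWithin_le_nhds
      refine tendsto_nhds_unique b1 (b2.congr' ?_)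
      filter_upwards [(hc s hs.2).2, nhdsWithin_le_nhds (hVo.mem_nhds hs)] with w hw1 hw2
      rw [← hw1, (hball w (hsub hw2.1)).1]
      rintro rfl
      simpa using hw2.2
    have a2 : HasDerivAt (fun w : ℂ => log (w - σ)) (1 / (s - σ)) s :=
      ((hasDerivAt_id s).sub_const (σ : ℂ)).clog (Or.inl (by simpa using hs.2))
    have a3 := ((hc s hs.2).1.differentiableAt.hasDerivAt.sub (a2.const_mul (r σ))).sub (hK s hs.1)
    rw [a1] at a3
    have a4 : r σ / (s - σ) + h s - r σ * (1 / (s - σ)) - h s = 0 := by ring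
    rw [a4] at a3
    exact a3
  obtain ⟨κ, hκ⟩ := hVo.exists_is_const_of_deriv_eq_zero hVc
    (fun s hs => (hder s hs).differentiableAt.differentiableWithinAt) (fun s hs => (hder s hs).deriv)
  have hr0 : r σ ≠ 0 := by
    intro h0
    have hmap : ∀ z ∈ ball ((-σ : ℝ) : ℂ) δ, -z ∈ ball (σ : ℂ) δ := fun z hz => by
      rw [mem_ball_iff_norm] at hz ⊢
      have e : -z - σ = -(z - ((-σ : ℝ) : ℂ)) := by
        push_cast
        ring
      rwa [e, norm_neg]
    have hne1 : ∀ s ∈ ball (σ : ℂ) δ, s - θ ≠ 0 := fun s hs h => by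
      have := congrArg re h
      have h' := hre s hs
      simp only [sub_re, ofReal_re, zero_re] at this
      linarith
    have hne2 : ∀ s ∈ ball (σ : ℂ) δ, s ≠ 0 := fun s hs h => by
      have h' := hre s hs
      rw [h, zero_re] at h'
      linarith
    obtain ⟨t, ht1, ht2⟩ := landau hX0 hδpos hint
      (F := fun z => C / (-z - θ) - (K (-z) + κ) / (-z)) (fun z hz => by
        refine DifferentiableAt.differentiableWithinAt ?_
        have b1 : DifferentiableAt ℂ (fun z : ℂ => (C : ℂ) / (-z - θ)) z :=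
          DifferentiableAt.div (c := fun _ => (C : ℂ)) (d := fun z : ℂ => -z - θ)
            (differentiableAt_const _) (by fun_prop) (hne1 _ (hmap z hz))
        have b2 : DifferentiableAt ℂ (fun z : ℂ => (K (-z) + κ) / (-z)) z :=
          DifferentiableAt.div (c := fun z => K (-z) + κ) (d := fun z : ℂ => -z)
            (((hK _ (hmap z hz)).differentiableAt.comp z differentiableAt_id.neg).add_const κ)
            (by fun_prop) (hne2 _ (hmap z hz))
        exact b1.sub b2)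
      (fun z hz hzre => by
        have b1 := hκ (-z) ⟨hmap z hz, by simp only [mem_ofPred_eq, neg_re]; linarith⟩
        simp only [hQ, h0, zero_mul, sub_zero, neg_neg] at b1
        have b2 : z ≠ 0 := neg_ne_zero.1 (hne2 _ (hmap z hz))
        rw [← b1]
        generalize (C : ℂ) / (-z - θ) = Y
        field_simp
        ring)
    exact hnot t ht1 ht2
  have hev : ∀ᶠ x : ℝ in 𝓝[>] σ, θ < x ∧
      x * (C / (x - θ) - mgf X μ (-x)) = r σ * Real.log (x - σ) + (K x + κ) := by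
    have b1 : ∀ᶠ x : ℝ in 𝓝 σ, (x : ℂ) ∈ ball (σ : ℂ) δ :=
      continuous_ofReal.continuousAt.eventually_mem (ball_mem_nhds _ hδpos)
    filter_upwards [nhdsWithin_le_nhds b1, self_mem_nhdsWithin] with x hx1 hx2
    have hx2' : σ < x := hx2
    have b2 := hκ x ⟨hx1, by simpa using hx2'⟩
    simp only [hQ] at b2
    rw [← ofReal_neg, complexMGF_ofReal, ← ofReal_sub x σ, ← ofReal_log (by linarith)] at b2
    exact ⟨by linarith, by rw [← b2]; ring⟩
  have hW : Tendsto (fun x : ℝ => K x + κ) (𝓝[>] σ) (𝓝 (K σ + κ)) :=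
    (((hK σ (mem_ball_self hδpos)).continuousAt.tendsto.comp
      continuous_ofReal.continuousAt.tendsto).add_const κ).mono_left nhdsWithin_le_nhds
  have him : ∀ᶠ x : ℝ in 𝓝[>] σ, (r σ).im * Real.log (x - σ) + (K x + κ).im = 0 := by
    filter_upwards [hev] with x hx
    have := congrArg im hx.2
    rw [← ofReal_sub, ← ofReal_div, ← ofReal_sub, ← ofReal_mul, ofReal_im, add_im,
      im_mul_ofReal] at this
    exact this.symm
  have i1 : 0 ≤ (r σ).im := nonneg_of_log_bound ((continuous_im.tendsto _).comp hW)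
    (him.mono fun x hx => hx.le)
  have i2 : 0 ≤ -(r σ).im := nonneg_of_log_bound ((continuous_im.tendsto _).comp hW).neg
    (him.mono fun x hx => by simp only [Function.comp]; linarith)
  have i3 : 0 ≤ (r σ).re := by
    have hb : Tendsto (fun x : ℝ => x * (C / (x - θ))) (𝓝[>] σ) (𝓝 (σ * (C / (σ - θ)))) :=
      (continuousAt_id.mul (continuousAt_const.div (continuousAt_id.sub continuousAt_const)
        (sub_ne_zero.2 h2.ne'))).tendsto.mono_left nhdsWithin_le_nhds
    refine nonneg_of_log_bound (σ := σ) (((continuous_re.tendsto _).comp hW).sub hb) ?_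
    filter_upwards [hev] with x hx
    have := congrArg re hx.2
    rw [← ofReal_sub, ← ofReal_div, ← ofReal_sub, ← ofReal_mul, ofReal_re, add_re,
      re_mul_ofReal] at this
    have h4 : 0 ≤ x * mgf X μ (-x) := mul_nonneg (by linarith [hx.1]) mgf_nonneg
    simp only [Function.comp]
    linarith
  refine lt_of_le_of_ne i3 fun h => hr0 (Complex.ext h.symm ?_)
  simp only [zero_im]
  linarith

theorem oscillation (hX0 : 0 ≤ᵐ[μ] X) (hXm : AEMeasurable X μ) (hθ0 : 0 ≤ θ) (hθ : θ < 1 / 2)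
    (hint : ∀ t < -1, Integrable (fun ω => Real.exp (t * X ω)) μ)
    (hP : ∀ s : ℂ, 1 < s.re → complexMGF X μ (-s) = C / (s - θ) - P s / s)
    (hM : ∀ s : ℂ, 1 < s.re → deriv P s = M s)
    (hres : ∀ ρ : ℂ, 2 / 5 < ρ.re → HasRes M ρ (r ρ)) :
    (∃ β : ℝ, 1 / 2 ≤ β ∧ 0 < (r β).re ∧ ∀ ρ : ℂ, β < ρ.re → r ρ = 0) ∨
      ∀ ρ : ℂ, 1 / 2 ≤ ρ.re → r ρ = 0 := by
  let T : Set ℝ := {t | Integrable (fun ω => Real.exp (t * X ω)) μ}
  have hmono : ∀ t ∈ T, ∀ t' ≤ t, t' ∈ T := by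
    intro t ht t' h
    refine Integrable.mono' ht
      (Real.measurable_exp.comp_aemeasurable (hXm.const_mul _)).aestronglyMeasurable ?_
    filter_upwards [hX0] with ω hω
    rw [Real.norm_eq_abs, abs_of_pos (Real.exp_pos _)]
    exact Real.exp_le_exp.2 (mul_le_mul_of_nonneg_right h hω)
  have hz : ∀ σ : ℝ, 2 / 5 ≤ σ → θ ≤ σ → σ ≤ 1 → (∀ t < -σ, t ∈ T) →
      ∀ ρ : ℂ, σ < ρ.re → r ρ = 0 := by
    intro σ h1 h2 h3 h4 ρ hρ
    obtain ⟨a1, a2⟩ := continuation hP hM hres h1 h2 h3 h4 hρ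
    exact (hres ρ (by linarith)).eq_zero a1.deriv a2
  by_cases hT : ∃ t ∈ T, -(1 / 2) < t
  · right
    obtain ⟨t, ht, ht'⟩ := hT
    intro ρ hρ
    have hlt : max (-t) (max (2 / 5) θ) < 1 / 2 := max_lt (by linarith) (max_lt (by norm_num) hθ)
    refine hz (max (-t) (max (2 / 5) θ)) ((le_max_left _ _).trans (le_max_right _ _))
      ((le_max_right _ _).trans (le_max_right _ _)) (by linarith) (fun t' h => hmono t ht t' ?_) ρ
      (by linarith)
    have := le_max_left (-t) (max (2 / 5) θ)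
    linarith
  · left
    push Not at hT
    have hbdd : BddAbove T := ⟨_, hT⟩
    have hne : T.Nonempty := ⟨-2, hint _ (by norm_num)⟩
    have h1 : sSup T ≤ -(1 / 2) := csSup_le hne hT
    have h2 : -1 ≤ sSup T := le_of_forall_lt_imp_le_of_dense fun t ht => le_csSup hbdd (hint t ht)
    have h3 : ∀ t < -(-sSup T), t ∈ T := fun t ht => by
      rw [neg_neg] at ht
      obtain ⟨t', ht', h⟩ := exists_lt_of_lt_csSup hne ht
      exact hmono t' ht' t h.le
    refine ⟨-sSup T, by linarith, ?_, hz _ (by linarith) (by linarith) (by linarith) h3⟩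
    refine boundary hX0 hθ0 hP hM hres (by linarith) (by linarith) (by linarith) h3 fun t ht h => ?_
    have := le_csSup hbdd h
    linarith

end

end Pool.Agent.Lib.MP_c04f8f_nt
end
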