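import Pool.Agent.Lib.MP_c04f8f_nt.Series
import Pool.Agent.Lib.MP_c04f8f_nt.Osc
import Pool.Agent.Lib.MP_c04f8f_nt.Defs

-- part Pool.Agent.Lib.MP_c04f8f_nt.Main
section

/-!
The oscillation theorem for sums over primes of a function of the residue class.
-/

set_option autoImplicit false

open MeasureTheory ProbabilityTheory Filter Topology Set Metric Complex DirichletCharacter
  Asymptotics

namespace Pool.Agent.Lib.MP_c04f8f_nt

theorem exists_measure (d : ℕ → ℝ) {B C θ : ℝ} (hB : ∀ n, |d n| ≤ B) (hθ1 : θ ≤ 1)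
    (hle : ∀ x : ℝ, 1 < x → ∑ k ∈ Finset.Icc 1 ⌊x⌋₊, d k ≤ C * x ^ θ) :
    ∃ μ : Measure ℝ, 0 ≤ᵐ[μ] Real.log ∧
      (∀ t < -1, Integrable (fun x => Real.exp (t * Real.log x)) μ) ∧
      ∀ s : ℂ, 1 < s.re →
        complexMGF Real.log μ (-s) = C / (s - θ) - LSeries (fun n => d n) s / s := by
  let D : ℝ → ℝ := fun x => ∑ k ∈ Finset.Icc 1 ⌊x⌋₊, d k
  have hDm : Measurable D :=
    (measurable_from_nat (f := fun n => ∑ k ∈ Finset.Icc 1 n, d k)).comp Nat.measurable_floor
  have hB0 : 0 ≤ B := (abs_nonneg _).trans (hB 0)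
  have hsum : ∀ n : ℕ, ∑ k ∈ Finset.Icc 1 n, |d k| ≤ B * n := fun n => by
    refine (Finset.sum_le_sum fun k _ => hB k).trans ?_
    simp [mul_comm]
  have hDb : ∀ x : ℝ, 1 < x → |D x| ≤ B * x := fun x hx =>
    (Finset.abs_sum_le_sum_abs _ _).trans ((hsum _).trans
      (mul_le_mul_of_nonneg_left (Nat.floor_le (by linarith)) hB0))
  let g : ℝ → ℝ := fun x => (C * x ^ θ - D x) / x
  have hgm : Measurable g := (((measurable_id.pow_const θ).const_mul C).sub hDm).div measurable_id
  have hg0 : ∀ x : ℝ, 1 < x → 0 ≤ g x := fun x hx =>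
    div_nonneg (sub_nonneg.2 (hle x hx)) (by linarith)
  have hgb : ∀ x : ℝ, 1 < x → g x ≤ |C| + B := fun x hx => by
    simp only [g]
    rw [div_le_iff₀ (by linarith)]
    have h1 : x ^ θ ≤ x := by simpa using Real.rpow_le_rpow_of_exponent_le hx.le hθ1
    have h2 : C * x ^ θ ≤ |C| * x :=
      (mul_le_mul_of_nonneg_right (le_abs_self C) (by positivity)).trans
        (mul_le_mul_of_nonneg_left h1 (abs_nonneg C))
    have h3 := (neg_le_abs _).trans (hDb x hx)
    linarith
  have hae : ∀ᵐ x ∂(volume.restrict (Ioi (1 : ℝ))), 1 < x := ae_restrict_mem measurableSet_Ioi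
  refine ⟨(volume.restrict (Ioi 1)).withDensity fun x => ENNReal.ofReal (g x), ?_, fun t ht => ?_,
    fun s hs => ?_⟩
  · refine (withDensity_absolutelyContinuous _ _).ae_le ?_
    filter_upwards [hae] with x hx using Real.log_nonneg hx.le
  · rw [integrable_withDensity_iff_integrable_smul' hgm.ennreal_ofReal
      (Eventually.of_forall fun _ => ENNReal.ofReal_lt_top)]
    refine Integrable.mono' ((integrableOn_Ioi_rpow_of_lt ht zero_lt_one).const_mul (|C| + B)) ?_ ?_
    · exact (hgm.ennreal_ofReal.ennreal_toReal.smul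
        (Real.measurable_exp.comp (Real.measurable_log.const_mul t))).aestronglyMeasurable
    · filter_upwards [hae] with x hx
      rw [ENNReal.toReal_ofReal (hg0 x hx), smul_eq_mul, Real.norm_eq_abs,
        abs_of_nonneg (mul_nonneg (hg0 x hx) (Real.exp_pos _).le),
        Real.rpow_def_of_pos (by linarith), mul_comm t]
      exact mul_le_mul_of_nonneg_right (hgb x hx) (Real.exp_pos _).le
  · have hs0 : s ≠ 0 := by
      rintro rfl
      norm_num at hs
    have hL := LSeries_eq_mul_integral' (fun n => (d n : ℂ)) (r := 1) zero_le_one hs (by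
      refine IsBigO.of_bound B (Eventually.of_forall fun n => ?_)
      simp only [norm_real, Real.norm_eq_abs, Real.rpow_one, Nat.abs_cast]
      rw [abs_of_nonneg (by positivity)]
      exact hsum n)
    have hre : ((θ : ℂ) - s - 1).re < -1 := by
      simp only [sub_re, ofReal_re, one_re]
      linarith
    have hI1 := integrableOn_Ioi_cpow_of_lt hre zero_lt_one
    have hI2 : IntegrableOn (fun t : ℝ => (∑ k ∈ Finset.Icc 1 ⌊t⌋₊, (d k : ℂ)) *
        (t : ℂ) ^ (-(s + 1))) (Ioi 1) := by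
      refine Integrable.mono' ((integrableOn_Ioi_rpow_of_lt (a := -s.re) (by linarith)
        zero_lt_one).const_mul B) ?_ ?_
      · refine ((measurable_sum_floor _).mul ?_).aestronglyMeasurable
        exact measurable_ofReal.pow_const _
      · filter_upwards [hae] with x hx
        have hx0 : 0 < x := by linarith
        rw [norm_mul, norm_cpow_eq_rpow_re_of_pos hx0, ← ofReal_sum, norm_real, Real.norm_eq_abs]
        have e : x ^ (-s.re) = x * x ^ (-(s + 1)).re := by
          rw [← Real.rpow_one_add' hx0.le]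
          · congr 1
            simp
          · simp only [neg_re, add_re, one_re]
            linarith
        rw [e, ← mul_assoc]
        exact mul_le_mul_of_nonneg_right (hDb x hx) (by positivity)
    rw [complexMGF, integral_withDensity_eq_integral_toReal_smul hgm.ennreal_ofReal
      (Eventually.of_forall fun _ => ENNReal.ofReal_lt_top), hL, mul_div_cancel_left₀ _ hs0]
    have h1 : (C : ℂ) / (s - θ) = ∫ t : ℝ in Ioi 1, C * (t : ℂ) ^ ((θ : ℂ) - s - 1) := by
      rw [integral_const_mul, integral_Ioi_cpow_of_lt hre zero_lt_one]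
      have : s - θ ≠ 0 := fun h => by
        have := congrArg re h
        simp only [sub_re, ofReal_re, zero_re] at this
        linarith
      have h2 : (θ : ℂ) - s - 1 + 1 = -(s - θ) := by ring
      rw [h2, ofReal_one, one_cpow, neg_div_neg_eq]
      ring
    rw [h1, ← integral_sub (hI1.const_mul _) hI2]
    refine integral_congr_ae ?_
    filter_upwards [hae] with x hx
    have hx0 : 0 < x := by linarith
    have hxc : (x : ℂ) ≠ 0 := by exact_mod_cast hx0.ne'
    rw [ENNReal.toReal_ofReal (hg0 x hx), real_smul]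
    have e1 : cexp (-s * Real.log x) = (x : ℂ) ^ (-s) := by
      rw [cpow_def_of_ne_zero hxc, ofReal_log hx0.le, mul_comm]
    have e2 : (x : ℂ) ^ ((θ : ℂ) - s - 1) = (x : ℂ) ^ (θ : ℂ) * (x : ℂ) ^ (-s) / x := by
      rw [cpow_sub _ _ hxc, cpow_one, sub_eq_add_neg, cpow_add _ _ hxc]
    have e3 : (x : ℂ) ^ (-(s + 1)) = (x : ℂ) ^ (-s) / x := by
      rw [neg_add', cpow_sub _ _ hxc, cpow_one]
    rw [e1, e2, e3]
    simp only [g, D]
    push_cast
    rw [ofReal_cpow hx0.le]
    field_simp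

variable {q : ℕ} [NeZero q]

open scoped Classical in
/-- The order of `L(s, ψ)` at `w`, counting the pole of the principal character. -/
noncomputable def ordL (ψ : DirichletCharacter ℂ q) (w : ℂ) : ℂ :=
  if ψ = 1 ∧ w = 1 then -1 else analyticOrderNatAt (LFunction ψ) w

theorem hasRes_LFunction (ψ : DirichletCharacter ℂ q) (w : ℂ) :
    HasRes (logDeriv (LFunction ψ)) w (ordL ψ w) := by
  unfold ordL
  split_ifs with h
  · obtain ⟨rfl, rfl⟩ := h
    have hd := differentiable_LFunctionTrivChar₁ q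
    have hne := LFunctionTrivChar₁_apply_one_ne_zero q
    refine ⟨logDeriv (LFunctionTrivChar₁ q), (hd.analyticAt 1).deriv.div (hd.analyticAt 1) hne, ?_⟩
    filter_upwards [nhdsWithin_le_nhds (hd.continuous.continuousAt.eventually_ne hne),
      self_mem_nhdsWithin] with s h1 h2
    have h2' : s ≠ 1 := h2
    have h3 : LFunctionTrivChar₁ q s = (s - 1) * LFunctionTrivChar q s :=
      Function.update_of_ne h2' ..
    have h1' : LFunctionTrivChar₁ q s ≠ 0 := h1
    rw [logDeriv_apply, logDeriv_apply, deriv_LFunctionTrivChar₁_apply_of_ne_one q h2', h3]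
    rw [h3] at h1'
    have h4 := left_ne_zero_of_mul h1'
    have h5 := right_ne_zero_of_mul h1'
    change deriv (LFunctionTrivChar q) s / LFunctionTrivChar q s = _
    field_simp
    ring
  · rcases eq_or_ne ψ 1 with hψ | hψ
    · have hw : w ≠ 1 := fun e => h ⟨hψ, e⟩
      have han : AnalyticOnNhd ℂ (LFunction ψ) {1}ᶜ :=
        DifferentiableOn.analyticOnNhd
          (fun s hs => (differentiableAt_LFunction _ _ (.inl hs)).differentiableWithinAt)
          isOpen_compl_singleton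
      refine hasRes_logDeriv (han w hw) ?_
      refine han.analyticOrderAt_ne_top_of_isPreconnected
        (isConnected_compl_singleton_of_one_lt_rank
          (rank_real_complex ▸ Nat.one_lt_ofNat) _).isPreconnected (x := 2) (by simp) hw ?_
      rw [analyticOrderAt_eq_zero.2 (Or.inr (LFunction_two_ne_zero ψ))]
      simp
    · exact hasRes_logDeriv ((differentiable_LFunction hψ).analyticAt w)
        (order_ne_top (differentiable_LFunction hψ) (LFunction_two_ne_zero ψ) w)

theorem ordL_of_one_le (ψ : DirichletCharacter ℂ q) {w : ℂ} (hw : 1 ≤ w.re)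
    (h : ψ ≠ 1 ∨ w ≠ 1) : ordL ψ w = 0 := by
  rw [ordL, if_neg (by tauto), analyticOrderNatAt,
    analyticOrderAt_eq_zero.2 (Or.inr (LFunction_ne_zero_of_one_le_re ψ h hw))]
  simp

open scoped Classical in
/-- The residue that governs the race. -/
noncomputable def resid (c : DirichletCharacter ℂ q → ℂ) (ρ : ℂ) : ℂ :=
  ∑ χ, c χ * (analyticOrderNatAt (LFunction χ) ρ : ℂ) +
    if ρ = 1 / 2 then (∑ χ, if χ ^ 2 = 1 then c χ else 0) / 2 else 0

theorem main (c : DirichletCharacter ℂ q → ℂ) (hc : c 1 = 0) (hreal : ∀ x, (Phi c x).im = 0)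
    (hne : ∃ x, Phi c x ≠ 0) {C θ : ℝ} (hθ0 : 0 ≤ θ) (hθ : θ < 1 / 2)
    (hle : ∀ x : ℝ, 1 < x → ∑ k ∈ Finset.Icc 1 ⌊x⌋₊, (dP c k).re ≤ C * x ^ θ) :
    ∃ β : ℝ, 1 / 2 ≤ β ∧ β < 1 ∧ 0 < (resid c β).re ∧ ∀ ρ : ℂ, β < ρ.re → resid c ρ = 0 := by
  classical
  obtain ⟨μ, hμ0, hμi, hμP⟩ := exists_measure (fun n => (dP c n).re)
    (fun n => (abs_re_le_norm _).trans (norm_dP_le c n)) (by linarith) hle
  have hd : (fun n => (((dP c n).re : ℝ) : ℂ)) = dP c := by
    funext n
    refine Complex.ext (by simp) ?_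
    rw [ofReal_im, dP]
    split_ifs
    · exact (hreal _).symm
    · rfl
  rw [hd] at hμP
  obtain ⟨E, hE, hM⟩ := exists_decomposition c
  let r : ℂ → ℂ := fun ρ => ∑ χ, c χ * ordL χ ρ - ∑ χ, c χ * (ordL (χ ^ 2) (2 * ρ) / 2) + 0
  have hres : ∀ ρ : ℂ, 2 / 5 < ρ.re → HasRes (fun s => ∑ χ, c χ * logDeriv (LFunction χ) s -
      ∑ χ, c χ * logDeriv (LFunction (χ ^ 2)) (2 * s) + E s) ρ (r ρ) := fun ρ hρ =>
    ((HasRes.sum _ fun χ _ => (hasRes_LFunction χ ρ).const_mul (c χ)).sub
      (HasRes.sum _ fun χ _ => (hasRes_LFunction (χ ^ 2) (2 * ρ)).comp_two_mul.const_mul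
        (c χ))).add (HasRes.of_analyticAt (hE ρ hρ))
  have hr : ∀ ρ : ℂ, 1 / 2 ≤ ρ.re → r ρ = resid c ρ := by
    intro ρ hρ
    simp only [r, resid, add_zero, sub_eq_add_neg]
    congr 1
    · refine Finset.sum_congr rfl fun χ _ => ?_
      rcases eq_or_ne χ 1 with rfl | hχ
      · rw [hc, zero_mul, zero_mul]
      · rw [ordL, if_neg (by tauto)]
    · have h2 : 1 ≤ (2 * ρ).re := by
        simp only [mul_re, re_ofNat, im_ofNat, zero_mul, sub_zero]
        linarith
      split_ifs with h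
      · rw [Finset.sum_div, ← Finset.sum_neg_distrib]
        refine Finset.sum_congr rfl fun χ _ => ?_
        split_ifs with hχ
        · rw [ordL, if_pos ⟨hχ, by rw [h]; norm_num⟩]
          ring
        · rw [ordL_of_one_le _ h2 (Or.inl hχ)]
          simp
      · rw [neg_eq_zero]
        refine Finset.sum_eq_zero fun χ _ => ?_
        rw [ordL_of_one_le _ h2 (Or.inr fun e => h (by linear_combination e / 2))]
        simp
  rcases oscillation hμ0 Real.measurable_log.aemeasurable hθ0 hθ hμi hμP hM hres with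
    ⟨β, h1, h2, h3⟩ | h
  · rw [hr β (by simpa using h1)] at h2
    refine ⟨β, h1, ?_, h2, fun ρ hρ => by rw [← hr ρ (by linarith), h3 ρ hρ]⟩
    by_contra! hβ
    have h4 : resid c β = 0 := by
      rw [resid, if_neg, add_zero]
      · refine Finset.sum_eq_zero fun χ _ => ?_
        rcases eq_or_ne χ 1 with rfl | hχ
        · rw [hc, zero_mul]
        · rw [analyticOrderNatAt, analyticOrderAt_eq_zero.2
            (Or.inr (LFunction_ne_zero_of_one_le_re χ (Or.inl hχ) (by simpa using hβ)))]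
          simp
      · intro e
        have := congrArg re e
        simp only [ofReal_re, div_ofNat_re, one_re] at this
        linarith
    rw [h4] at h2
    simp at h2
  · obtain ⟨x, hx⟩ := hne
    refine absurd (grosswald c hc (fun ρ h1 _ h2 => ?_) x) hx
    have := h ρ h1
    rwa [hr ρ h1, resid, if_neg h2, add_zero] at this

end Pool.Agent.Lib.MP_c04f8f_nt
end

-- part Pool.Agent.Lib.MP_c04f8f_nt.Race
section

/-!
Two-class prime number races.
-/

set_option autoImplicit false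

open Filter Topology Set Complex DirichletCharacter ComplexConjugate

namespace Pool.Agent.Lib.MP_c04f8f_nt

variable {q : ℕ} [NeZero q]

omit [NeZero q] in
theorem char_inv {χ : DirichletCharacter ℂ q} {u : ZMod q} (hu : IsUnit u) :
    χ u⁻¹ = conj (χ u) := by
  have h1 : χ u⁻¹ * χ u = 1 := by rw [← map_mul, ZMod.inv_mul_of_unit u hu, map_one]
  rw [eq_inv_of_mul_eq_one_left h1, ← MulChar.inv_apply_eq_inv']
  exact (MulChar.star_apply' χ u).symm

open scoped Classical in
theorem sum_real_chars {u : ZMod q} (hu : IsUnit u) :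
    ∑ χ : DirichletCharacter ℂ q, (if χ ^ 2 = 1 then χ u⁻¹ else 0) =
      ((Finset.univ.filter fun x : ZMod q => x ^ 2 = u).card : ℂ) := by
  have hφ : (q.totient : ℂ) ≠ 0 := by exact_mod_cast (Nat.totient_pos.2 (NeZero.pos q)).ne'
  apply mul_left_cancel₀ hφ
  have h1 : (q.totient : ℂ) * ((Finset.univ.filter fun x : ZMod q => x ^ 2 = u).card : ℂ) =
      ∑ x : ZMod q, ∑ χ : DirichletCharacter ℂ q, χ u⁻¹ * χ (x ^ 2) := by
    simp_rw [sum_char_inv_mul_char_eq ℂ hu, eq_comm (a := u)]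
    rw [← Finset.sum_filter, Finset.sum_const, nsmul_eq_mul, mul_comm]
  rw [h1, Finset.sum_comm, Finset.mul_sum]
  refine Finset.sum_congr rfl fun χ _ => ?_
  rw [← Finset.mul_sum]
  simp_rw [map_pow, ← MulChar.pow_apply' χ two_ne_zero]
  split_ifs with h
  · rw [h, MulChar.sum_one_eq_card_units, ZMod.card_units_eq_totient, mul_comm]
  · rw [MulChar.sum_eq_zero_of_ne_one h, mul_zero, mul_zero]

omit [NeZero q] in
theorem primeCount_eq (n a : ℕ) :
    (primeCount n a q : ℝ) =
      ∑ k ∈ Finset.Icc 1 n, if k.Prime ∧ (a : ZMod q) = (k : ZMod q) then (1 : ℝ) else 0 := by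
  rw [Finset.sum_boole, primeCount]
  congr 2
  ext k
  simp only [Finset.mem_filter, Finset.mem_range, Finset.mem_Icc, ZMod.natCast_eq_natCast_iff]
  constructor
  · rintro ⟨h1, h2, h3⟩
    exact ⟨⟨h2.one_le, by omega⟩, h2, h3.symm⟩
  · rintro ⟨⟨-, h1⟩, h2, h3⟩
    exact ⟨by omega, h2, h3.symm⟩

omit [NeZero q] in
theorem primeCount_le (n a : ℕ) : primeCount n a q ≤ n + 1 :=
  (Finset.card_filter_le _ _).trans (Finset.card_range _).le

theorem criterion {a a₁ : ℕ} (ha : a.Coprime q) (ha₁ : a₁.Coprime q) (hne : ¬ a₁ ≡ a [MOD q])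
    {θ : ℝ} (hθ : θ < 1 / 2) (h : ¬ Leads q a a₁ θ) :
    ∃ β ∈ Ico (1 / 2 : ℝ) 1, 0 < realZeroWeight q a a₁ β ∧
      ∀ β' ∈ Ioo β 1, realZeroWeight q a a₁ β' = 0 := by
  classical
  have hu : IsUnit (a : ZMod q) := (ZMod.isUnit_iff_coprime a q).2 ha
  have hu₁ : IsUnit (a₁ : ZMod q) := (ZMod.isUnit_iff_coprime a₁ q).2 ha₁
  have hne' : (a₁ : ZMod q) ≠ a := fun e => hne ((ZMod.natCast_eq_natCast_iff _ _ _).1 e)
  let c : DirichletCharacter ℂ q → ℂ := fun χ => χ (a : ZMod q)⁻¹ - χ (a₁ : ZMod q)⁻¹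
  have hc : c 1 = 0 := by
    simp only [c, char_inv hu, char_inv hu₁, MulChar.one_apply hu, MulChar.one_apply hu₁, sub_self]
  have hPhi : ∀ x, Phi c x = (((q.totient : ℝ) * ((if (a : ZMod q) = x then 1 else 0) -
      (if (a₁ : ZMod q) = x then 1 else 0)) : ℝ) : ℂ) := fun x => by
    simp only [Phi, c, sub_mul, Finset.sum_sub_distrib, sum_char_inv_mul_char_eq ℂ hu,
      sum_char_inv_mul_char_eq ℂ hu₁]
    split_ifs <;> simp
  have hφ : (0 : ℝ) < q.totient := by exact_mod_cast Nat.totient_pos.2 (NeZero.pos q)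
  have hsum : ∀ n : ℕ, ∑ k ∈ Finset.Icc 1 n, (dP c k).re =
      q.totient * ((primeCount n a q : ℝ) - primeCount n a₁ q) := fun n => by
    rw [primeCount_eq, primeCount_eq, ← Finset.sum_sub_distrib, Finset.mul_sum]
    refine Finset.sum_congr rfl fun k _ => ?_
    rw [dP]
    by_cases hk : k.Prime
    · rw [if_pos hk, hPhi, ofReal_re]
      simp [hk]
    · simp [hk]
  simp only [Leads, not_forall, not_exists, not_and, not_lt] at h
  obtain ⟨N, hN⟩ := h
  obtain ⟨β, h1, h2, h3, h4⟩ := main c hc (fun x => by rw [hPhi, ofReal_im])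
    ⟨a, by rw [hPhi, if_pos rfl, if_neg hne']; simpa using (NeZero.ne q)⟩
    (C := q.totient * (N + 2)) (θ := max θ 0) (le_max_right _ _) (max_lt hθ (by norm_num))
    (fun x hx => by
      rw [hsum, mul_assoc]
      refine mul_le_mul_of_nonneg_left ?_ hφ.le
      have a1 : 1 ≤ x ^ max θ 0 := Real.one_le_rpow hx.le (le_max_right _ _)
      have a2 : (0 : ℝ) ≤ N := Nat.cast_nonneg N
      rcases le_or_gt N ⌊x⌋₊ with hx' | hx'
      · have b1 := hN _ hx'
        have b2 : (1 : ℝ) ≤ ⌊x⌋₊ := by exact_mod_cast Nat.le_floor (by simpa using hx.le)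
        have b3 : ((⌊x⌋₊ : ℕ) : ℝ) ^ θ ≤ x ^ max θ 0 :=
          (Real.rpow_le_rpow_of_exponent_le b2 (le_max_left _ _)).trans
            (Real.rpow_le_rpow (by linarith) (Nat.floor_le (by linarith)) (le_max_right _ _))
        nlinarith
      · have b1 : (primeCount ⌊x⌋₊ a q : ℝ) ≤ N := by
          exact_mod_cast (primeCount_le _ _).trans hx'
        have b2 : (0 : ℝ) ≤ primeCount ⌊x⌋₊ a₁ q := Nat.cast_nonneg _
        nlinarith)
  have hw : ∀ y : ℝ, (resid c y).re = realZeroWeight q a a₁ y := fun y => by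
    rw [resid, realZeroWeight, add_re, re_sum]
    congr 1
    · refine Finset.sum_congr rfl fun χ _ => ?_
      simp only [c, char_inv hu, char_inv hu₁, mul_re, natCast_re, natCast_im, mul_zero, sub_zero,
        sub_re, conj_re]
      ring
    · have e : ((y : ℂ) = 1 / 2) ↔ y = 1 / 2 := by
        rw [← ofReal_inj]
        push_cast
        rfl
      simp only [e]
      split_ifs with hy
      · have e2 : (∑ χ : DirichletCharacter ℂ q, if χ ^ 2 = 1 then c χ else 0) =
            (sqrtCount q a : ℂ) - sqrtCount q a₁ := by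
          rw [sqrtCount, sqrtCount, ← sum_real_chars hu, ← sum_real_chars hu₁,
            ← Finset.sum_sub_distrib]
          refine Finset.sum_congr rfl fun χ _ => ?_
          split_ifs <;> simp [c]
        rw [e2]
        simp
      · simp
  refine ⟨β, ⟨h1, h2⟩, hw β ▸ h3, fun β' hβ' => ?_⟩
  rw [← hw, h4 β' (by simpa using hβ'.1), zero_re]

theorem sqrtCount_le_one {a : ℕ} (ha : a.Coprime q) : sqrtCount q a ≤ sqrtCount q 1 := by
  classical
  have hu : IsUnit (a : ZMod q) := (ZMod.isUnit_iff_coprime a q).2 ha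
  have h1 := congrArg re (sum_real_chars hu)
  have h2 := congrArg re (sum_real_chars (q := q) isUnit_one)
  rw [natCast_re, re_sum] at h1 h2
  have h3 : (sqrtCount q a : ℝ) ≤ sqrtCount q 1 := by
    rw [sqrtCount, sqrtCount, Nat.cast_one, ← h1, ← h2]
    refine Finset.sum_le_sum fun χ _ => ?_
    split_ifs
    · rw [char_inv isUnit_one, map_one, map_one, one_re]
      exact (re_le_norm _).trans (χ.norm_le_one _)
    · exact le_rfl
  exact_mod_cast h3

theorem weight_congr {a a' a₁ a₁' : ℕ} (h : a ≡ a' [MOD q]) (h₁ : a₁ ≡ a₁' [MOD q]) (β : ℝ) :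
    realZeroWeight q a a₁ β = realZeroWeight q a' a₁' β := by
  simp only [realZeroWeight, sqrtCount, (ZMod.natCast_eq_natCast_iff _ _ _).2 h,
    (ZMod.natCast_eq_natCast_iff _ _ _).2 h₁]

theorem weight_one_nonpos {a : ℕ} (ha : a.Coprime q) (β : ℝ) : realZeroWeight q a 1 β ≤ 0 := by
  rw [realZeroWeight]
  refine add_nonpos (Finset.sum_nonpos fun χ _ => mul_nonpos_of_nonneg_of_nonpos
    (Nat.cast_nonneg _) ?_) ?_
  · rw [Nat.cast_one, map_one, sub_re, one_re, sub_nonpos]
    exact (re_le_norm _).trans (χ.norm_le_one _)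
  · split_ifs
    · have : (sqrtCount q a : ℝ) ≤ sqrtCount q 1 := by exact_mod_cast sqrtCount_le_one ha
      linarith
    · exact le_rfl

theorem weight_swap (a a₁ : ℕ) (β : ℝ) : realZeroWeight q a₁ a β = -realZeroWeight q a a₁ β := by
  rw [realZeroWeight, realZeroWeight, neg_add, ← Finset.sum_neg_distrib]
  congr 1
  · refine Finset.sum_congr rfl fun χ _ => ?_
    simp only [sub_re]
    ring
  · split_ifs
    · ring
    · simp

theorem weight_add (a a₁ a₂ : ℕ) (β : ℝ) :
    realZeroWeight q a a₂ β = realZeroWeight q a a₁ β + realZeroWeight q a₁ a₂ β := by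
  simp only [realZeroWeight]
  rw [add_add_add_comm, ← Finset.sum_add_distrib]
  congr 1
  · refine Finset.sum_congr rfl fun χ _ => ?_
    simp only [sub_re]
    ring
  · split_ifs
    · ring
    · simp

theorem weight_inv {a a' : ℕ} (h : a * a' ≡ 1 [MOD q]) (β : ℝ) : realZeroWeight q a a' β = 0 := by
  classical
  have h1 : (a : ZMod q) * a' = 1 := by
    have := (ZMod.natCast_eq_natCast_iff _ _ _).2 h
    simpa using this
  have hu : IsUnit (a : ZMod q) := IsUnit.of_mul_eq_one _ h1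
  have hu' : IsUnit (a' : ZMod q) := IsUnit.of_mul_eq_one_right _ h1
  have h2 : (a' : ZMod q) = (a : ZMod q)⁻¹ := (ZMod.inv_eq_of_mul_eq_one q _ _ h1).symm
  have h3 : sqrtCount q a = sqrtCount q a' := by
    have b1 := congrArg re (sum_real_chars hu)
    have b2 := congrArg re (sum_real_chars hu')
    rw [natCast_re, re_sum] at b1 b2
    have h3 : (sqrtCount q a : ℝ) = sqrtCount q a' := by
      rw [sqrtCount, sqrtCount, ← b1, ← b2]
      refine Finset.sum_congr rfl fun χ _ => ?_
      split_ifs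
      · rw [char_inv hu', h2, char_inv hu, conj_re, conj_re, conj_re]
      · rfl
    exact_mod_cast h3
  rw [realZeroWeight, h3, sub_self, zero_div, ite_self, add_zero]
  refine Finset.sum_eq_zero fun χ _ => ?_
  rw [h2, char_inv hu, sub_re, conj_re, sub_self, mul_zero]

theorem weight_eq_zero_of {a a' : ℕ} (h : a' ≡ a [MOD q] ∨ a * a' ≡ 1 [MOD q]) (β : ℝ) :
    realZeroWeight q a a' β = 0 := by
  rcases h with h | h
  · have h1 := weight_swap (q := q) a a β
    rw [weight_congr (Nat.ModEq.refl a) h]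
    linarith
  · exact weight_inv h β

omit [NeZero q] in
theorem coprime_of {a a' : ℕ} (ha : a.Coprime q) (h : a' ≡ a [MOD q] ∨ a * a' ≡ 1 [MOD q]) :
    a'.Coprime q := by
  rcases h with h | h
  · rw [Nat.Coprime, h.gcd_eq]
    exact ha
  · exact Nat.coprime_of_mul_modEq_one a (by rwa [mul_comm])

theorem dichotomy {a a₁ : ℕ} (ha : a.Coprime q) (ha₁ : a₁.Coprime q) {θ : ℝ} (hθ : θ < 1 / 2) :
    (∀ x y : ℕ, (x ≡ a [MOD q] ∨ a * x ≡ 1 [MOD q]) → (y ≡ a₁ [MOD q] ∨ a₁ * y ≡ 1 [MOD q]) →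
        ¬ y ≡ x [MOD q] → Leads q x y θ) ∨
      (∀ x y : ℕ, (x ≡ a [MOD q] ∨ a * x ≡ 1 [MOD q]) → (y ≡ a₁ [MOD q] ∨ a₁ * y ≡ 1 [MOD q]) →
        ¬ y ≡ x [MOD q] → Leads q y x θ) := by
  have hw : ∀ x y : ℕ, (x ≡ a [MOD q] ∨ a * x ≡ 1 [MOD q]) →
      (y ≡ a₁ [MOD q] ∨ a₁ * y ≡ 1 [MOD q]) → ∀ β,
      realZeroWeight q x y β = realZeroWeight q a a₁ β := fun x y hx hy β => by
    rw [weight_add x a y, weight_add a a₁ y, weight_eq_zero_of hy, weight_swap a x,
      weight_eq_zero_of hx]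
    ring
  by_contra hcon
  push Not at hcon
  obtain ⟨⟨x, y, hx, hy, hxy, h1⟩, ⟨x', y', hx', hy', hxy', h2⟩⟩ := hcon
  obtain ⟨β, hβ, b1, b2⟩ := criterion (coprime_of ha hx) (coprime_of ha₁ hy) hxy hθ h1
  obtain ⟨γ, hγ, c1, c2⟩ := criterion (coprime_of ha₁ hy') (coprime_of ha hx')
    (fun e => hxy' e.symm) hθ h2
  simp only [hw x y hx hy] at b1 b2
  simp only [weight_swap x' y', hw x' y' hx' hy'] at c1 c2
  rcases lt_trichotomy β γ with h | h | h
  · have := b2 γ ⟨h, hγ.2⟩
    linarith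
  · subst h
    linarith
  · have := c2 β ⟨h, hβ.2⟩
    linarith

theorem unconditional {a a₁ : ℕ} (ha : a.Coprime q) (hne : ¬ a₁ ≡ a [MOD q])
    (h : a₁ ≡ 1 [MOD q] ∨ a * a₁ ≡ 1 [MOD q]) {θ : ℝ} (hθ : θ < 1 / 2) : Leads q a a₁ θ := by
  by_contra hcon
  rcases h with h | h
  · obtain ⟨β, -, b1, -⟩ := criterion ha (coprime_of (Nat.coprime_one_left q) (Or.inl h)) hne hθ hcon
    rw [weight_congr (Nat.ModEq.refl a) h] at b1
    exact absurd b1 (not_lt.2 (weight_one_nonpos ha β))
  · obtain ⟨β, -, b1, -⟩ := criterion ha (coprime_of ha (Or.inr h)) hne hθ hcon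
    rw [weight_inv h] at b1
    exact lt_irrefl _ b1

end Pool.Agent.Lib.MP_c04f8f_nt
end
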