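import Mathlib

-- part Pool.Agent.Lib.MP_c04f8f_nt.Entire
section

/-!
A weak form of Hadamard's factorisation theorem: if entire functions of order at most two have
zero divisors satisfying a linear relation, the same combination of logarithmic derivatives has
vanishing second derivative.
-/

set_option autoImplicit false

open Filter Topology Set Metric Complex

namespace Pool.Agent.Lib.MP_c04f8f_nt

theorem order_ne_top {f : ℂ → ℂ} (hf : Differentiable ℂ f) {z : ℂ} (hz : f z ≠ 0) (ρ : ℂ) :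
    analyticOrderAt f ρ ≠ ⊤ := by
  intro h
  have h1 := (AnalyticOnNhd.analyticOrderAt_eq_top_iff_eq_zero ρ (fun w => hf.analyticAt w)).1 h
  exact hz (by rw [h1]; rfl)

theorem exists_factor_one {f : ℂ → ℂ} (hf : Differentiable ℂ f) {z : ℂ} (hz : f z ≠ 0) (ρ : ℂ) :
    ∃ g : ℂ → ℂ, Differentiable ℂ g ∧ g ρ ≠ 0 ∧
      ∀ s, f s = (s - ρ) ^ analyticOrderNatAt f ρ * g s := by
  classical
  obtain ⟨g₀, hg₀, hne, hev⟩ := (hf.analyticAt ρ).analyticOrderAt_ne_top.1 (order_ne_top hf hz ρ)
  set n := analyticOrderNatAt f ρ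
  refine ⟨fun s => if s = ρ then g₀ ρ else f s / (s - ρ) ^ n, fun s => ?_, by simpa using hne,
    fun s => ?_⟩
  · by_cases hs : s = ρ
    · subst hs
      refine hg₀.differentiableAt.congr_of_eventuallyEq ?_
      filter_upwards [hev] with w hw
      by_cases hw' : w = s
      · simp [hw']
      · rw [if_neg hw', hw, smul_eq_mul]
        have : (w - s) ^ n ≠ 0 := pow_ne_zero _ (sub_ne_zero.2 hw')
        field_simp
    · have h1 : DifferentiableAt ℂ (fun w => f w / (w - ρ) ^ n) s :=
        (hf s).div (by fun_prop) (pow_ne_zero _ (sub_ne_zero.2 hs))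
      refine h1.congr_of_eventuallyEq ?_
      filter_upwards [isOpen_ne.mem_nhds hs] with w hw
      rw [if_neg hw]
  · by_cases hs : s = ρ
    · subst hs
      simpa using hev.self_of_nhds
    · have : (s - ρ) ^ n ≠ 0 := pow_ne_zero _ (sub_ne_zero.2 hs)
      simp only [if_neg hs]
      field_simp

theorem order_mul_of_ne_zero {u g : ℂ → ℂ} {ρ : ℂ} (hu : AnalyticAt ℂ u ρ) (hg : AnalyticAt ℂ g ρ)
    (h0 : u ρ ≠ 0) : analyticOrderNatAt (fun s => u s * g s) ρ = analyticOrderNatAt g ρ := by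
  have h := analyticOrderAt_mul hu hg
  rw [hu.analyticOrderAt_eq_zero.2 h0, zero_add] at h
  unfold analyticOrderNatAt
  exact congrArg ENat.toNat h

theorem exists_factor {f : ℂ → ℂ} (hf : Differentiable ℂ f) {z : ℂ} (hz : f z ≠ 0)
    (Z : Finset ℂ) :
    ∃ g : ℂ → ℂ, Differentiable ℂ g ∧ (∀ ρ ∈ Z, g ρ ≠ 0) ∧
      ∀ s, f s = (∏ ρ ∈ Z, (s - ρ) ^ analyticOrderNatAt f ρ) * g s := by
  classical
  induction Z using Finset.induction_on with
  | empty => exact ⟨f, hf, by simp, by simp⟩
  | insert ρ Z hρ ih =>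
    obtain ⟨g, hg, hne, heq⟩ := ih
    have hgz : g z ≠ 0 := fun h => hz (by rw [heq z, h, mul_zero])
    obtain ⟨g', hg', hne', heq'⟩ := exists_factor_one hg hgz ρ
    have hord : analyticOrderNatAt f ρ = analyticOrderNatAt g ρ := by
      have e : f = fun s => (∏ ρ ∈ Z, (s - ρ) ^ analyticOrderNatAt f ρ) * g s := funext heq
      conv_lhs => rw [e]
      refine order_mul_of_ne_zero ?_ (hg.analyticAt ρ) ?_
      · apply Differentiable.analyticAt
        fun_prop
      · refine Finset.prod_ne_zero_iff.2 fun σ hσ => pow_ne_zero _ (sub_ne_zero.2 ?_)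
        rintro rfl
        exact hρ hσ
    refine ⟨g', hg', fun σ hσ => ?_, fun s => ?_⟩
    · rcases Finset.mem_insert.1 hσ with rfl | hσ
      · exact hne'
      · intro h
        exact hne σ hσ (by rw [heq' σ, h, mul_zero])
    · rw [Finset.prod_insert hρ, heq s, heq' s, hord]
      ring

/-- The local partial fraction expansion of the logarithmic derivative. -/
theorem exists_local_log {f : ℂ → ℂ} (hf : Differentiable ℂ f) {z : ℂ} (hz : f z ≠ 0)
    {r M : ℝ} (hr : 0 < r) (hM : 0 < M)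
    (hb : ∀ s ∈ sphere z (2 * r), ‖f s‖ ≤ ‖f z‖ * Real.exp M)
    (Z : Finset ℂ) (hZ : ∀ ρ ∈ Z, ρ ∈ closedBall z r) (hZ' : ∀ ρ ∈ closedBall z r, f ρ = 0 → ρ ∈ Z) :
    ∃ h : ℂ → ℂ, DifferentiableOn ℂ h (ball z r) ∧ (∀ s ∈ closedBall z (r / 2), ‖h s‖ ≤ 2 * M) ∧
      ∀ s ∈ ball z r, f s ≠ 0 →
        logDeriv f s = ∑ ρ ∈ Z, (analyticOrderNatAt f ρ : ℂ) / (s - ρ) + deriv h s := by
  obtain ⟨g, hg, hne, heq⟩ := exists_factor hf hz Z
  set P : ℂ → ℂ := fun s => ∏ ρ ∈ Z, (s - ρ) ^ analyticOrderNatAt f ρ with hP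
  have hPz : P z ≠ 0 := fun h => hz (by rw [heq z]; simp only [hP] at h; rw [h, zero_mul])
  have hg0 : ∀ s ∈ closedBall z r, g s ≠ 0 := fun s hs h =>
    hne s (hZ' s hs (by rw [heq s, h, mul_zero])) h
  have hgb : ∀ s ∈ closure (ball z (2 * r)), ‖g s‖ ≤ ‖g z‖ * Real.exp M := by
    intro s hs
    refine norm_le_of_forall_mem_frontier_norm_le isBounded_ball hg.diffContOnCl (fun w hw => ?_) hs
    rw [frontier_ball z (by positivity)] at hw
    have h1 : ‖P z‖ ≤ ‖P w‖ := by
      simp only [hP, norm_prod, norm_pow]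
      refine Finset.prod_le_prod (fun _ _ => by positivity) fun ρ hρ => ?_
      refine pow_le_pow_left₀ (norm_nonneg _) ?_ _
      have a1 : ‖z - ρ‖ ≤ r := by
        have := hZ ρ hρ
        rwa [mem_closedBall, dist_comm, dist_eq_norm] at this
      have a2 : ‖w - z‖ = 2 * r := by simpa [mem_sphere, dist_eq_norm] using hw
      have a3 : ‖w - z‖ ≤ ‖w - ρ‖ + ‖z - ρ‖ := by
        have : w - z = (w - ρ) - (z - ρ) := by ring
        rw [this]
        exact norm_sub_le _ _
      linarith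
    have h2 := hb w hw
    rw [heq w, heq z, norm_mul, norm_mul] at h2
    have h3 : 0 < ‖P z‖ := norm_pos_iff.2 hPz
    have h4 : ‖P z‖ * ‖g w‖ ≤ ‖P z‖ * (‖g z‖ * Real.exp M) :=
      calc ‖P z‖ * ‖g w‖ ≤ ‖P w‖ * ‖g w‖ := by gcongr
        _ ≤ _ := by rw [← mul_assoc]; exact h2
    exact le_of_mul_le_mul_left h4 h3
  have hld : DifferentiableOn ℂ (logDeriv g) (ball z r) := fun s hs =>
    (((hg.analyticAt s).deriv.differentiableAt).div (hg s)
      (hg0 s (ball_subset_closedBall hs))).differentiableWithinAt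
  obtain ⟨h, hz0, hh⟩ := hld.isExactOn_ball.with_val_at z 0
  have hdiff : DifferentiableOn ℂ h (ball z r) := fun s hs =>
    (hh s hs).differentiableAt.differentiableWithinAt
  have hexp : ∀ s ∈ ball z r, g s = g z * cexp (h s) := by
    have hd : ∀ s ∈ ball z r, HasDerivAt (fun w => g w * cexp (-h w)) 0 s := by
      intro s hs
      have h1 := ((hg s).hasDerivAt).mul ((hh s hs).neg.cexp)
      have h2 := hg0 s (ball_subset_closedBall hs)
      have h3 : deriv g s * cexp ((-h) s) + g s * (cexp ((-h) s) * -logDeriv g s) = 0 := by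
        rw [logDeriv_apply]
        field_simp
        ring
      rw [h3] at h1
      exact h1
    intro s hs
    have h1 := isOpen_ball.is_const_of_deriv_eq_zero (convex_ball z r).isPreconnected
      (fun s hs => (hd s hs).differentiableAt.differentiableWithinAt)
      (fun s hs => (hd s hs).deriv) hs (mem_ball_self hr)
    simp only [hz0, neg_zero, Complex.exp_zero, mul_one] at h1
    rw [← h1, mul_assoc, ← Complex.exp_add]
    simp
  have hre : ∀ s ∈ ball z r, (h s).re ≤ M := by
    intro s hs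
    have h1 := hgb s (subset_closure (ball_subset_ball (by linarith) hs))
    rw [hexp s hs, norm_mul, Complex.norm_exp] at h1
    have h2 : 0 < ‖g z‖ := norm_pos_iff.2 (hg0 z (mem_closedBall_self hr.le))
    exact Real.exp_le_exp.1 (le_of_mul_le_mul_left h1 h2)
  refine ⟨h, hdiff, fun s hs => ?_, fun s hs hfs => ?_⟩
  · have hmap : ∀ w ∈ ball (0 : ℂ) r, w + z ∈ ball z r := fun w hw => by
      simpa [mem_ball, dist_eq_norm] using hw
    have hs' : ‖s - z‖ ≤ r / 2 := by simpa [mem_closedBall, dist_eq_norm] using hs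
    have h1 := borelCaratheodory_zero (f := fun w => h (w + z)) (R := r) (z := s - z) hM
      (hdiff.comp (by fun_prop) hmap) (fun w hw => hre _ (hmap w hw)) hr
      (by rw [mem_ball_zero_iff]; linarith) (by simpa using hz0)
    simp only [sub_add_cancel] at h1
    refine h1.trans ?_
    rw [div_le_iff₀ (by linarith)]
    nlinarith [norm_nonneg (s - z)]
  · have e : f = fun s => P s * g s := funext heq
    have hPs : P s ≠ 0 := fun h => hfs (by rw [heq s]; simp only [hP] at h; rw [h, zero_mul])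
    have hPd : Differentiable ℂ P := by
      simp only [hP]
      fun_prop
    conv_lhs => rw [e]
    rw [logDeriv_mul s hPs (hg0 s (ball_subset_closedBall hs)) (hPd s) (hg s), (hh s hs).deriv]
    congr 1
    simp only [hP] at hPs ⊢
    rw [logDeriv_prod (f := fun ρ s => (s - ρ) ^ analyticOrderNatAt f ρ)
      (Finset.prod_ne_zero_iff.1 hPs) (fun _ _ => by fun_prop)]
    refine Finset.sum_congr rfl fun ρ _ => ?_
    rw [logDeriv_fun_pow (f := fun s => s - ρ) (by fun_prop), logDeriv_apply]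
    simp [div_eq_mul_inv]

theorem finite_zeros {f : ℂ → ℂ} (hf : Differentiable ℂ f) {z : ℂ} (hz : f z ≠ 0) (r : ℝ) :
    {ρ ∈ closedBall z r | f ρ = 0}.Finite := by
  have h := AnalyticOnNhd.preimage_zero_mem_codiscrete (fun w _ => hf.analyticAt w) hz
  have h2 := (isCompact_closedBall z r).finite_sdiff_of_mem_codiscreteWithin
    (codiscreteWithin_mono (subset_univ _) h)
  refine h2.subset fun ρ hρ => ⟨hρ.1, ?_⟩
  simp [hρ.2]

/-- Weak Hadamard factorisation. -/
theorem iteratedDeriv_two_eq_zero {ι : Type*} [Fintype ι] {F : ι → ℂ → ℂ} {c : ι → ℂ}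
    (hF : ∀ i, Differentiable ℂ (F i))
    (hgr : ∀ i, ∃ C : ℝ, ∀ s, ‖F i s‖ ≤ Real.exp (C * (1 + ‖s‖) ^ 2))
    (hrel : ∀ ρ, ∑ i, c i * (analyticOrderNatAt (F i) ρ : ℂ) = 0)
    {z : ℂ} (hz : ∀ i, F i z ≠ 0) :
    iteratedDeriv 2 (fun s => ∑ i, c i * logDeriv (F i) s) z = 0 := by
  classical
  choose C hC using hgr
  let A : ι → ℝ := fun i => |C i| * (3 + ‖z‖) ^ 2 + |Real.log ‖F i z‖| + 1
  have hA : ∀ i, 0 < A i := fun i => by simp only [A]; positivity
  let B : ℝ := 6 * (∑ i, ‖c i‖ * (2 * A i)) * 8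
  have key : ∀ r : ℝ, 1 ≤ r →
      ‖iteratedDeriv 2 (fun s => ∑ i, c i * logDeriv (F i) s) z‖ ≤ B / r := by
    intro r hr
    have hr0 : 0 < r := by linarith
    have hfin : (⋃ i, {ρ ∈ closedBall z r | F i ρ = 0}).Finite :=
      finite_iUnion fun i => finite_zeros (hF i) (hz i) r
    have hb : ∀ i, ∀ s ∈ sphere z (2 * r), ‖F i s‖ ≤ ‖F i z‖ * Real.exp (A i * r ^ 2) := by
      intro i s hs
      have h1 : ‖s‖ ≤ ‖z‖ + 2 * r := by
        have a2 : ‖s - z‖ = 2 * r := by simpa [mem_sphere, dist_eq_norm] using hs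
        have := norm_add_le z (s - z)
        rw [add_sub_cancel] at this
        linarith
      have h2 : 0 < ‖F i z‖ := norm_pos_iff.2 (hz i)
      refine (hC i s).trans ?_
      rw [← Real.exp_log h2, ← Real.exp_add, Real.exp_le_exp]
      have h3 : (1 + ‖s‖) ^ 2 ≤ ((3 + ‖z‖) * r) ^ 2 := by
        apply pow_le_pow_left₀ (by positivity)
        nlinarith [norm_nonneg z]
      have h4 : C i * (1 + ‖s‖) ^ 2 ≤ |C i| * ((3 + ‖z‖) * r) ^ 2 :=
        (mul_le_mul_of_nonneg_right (le_abs_self _) (by positivity)).trans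
          (mul_le_mul_of_nonneg_left h3 (abs_nonneg _))
      have h5 : 1 ≤ r ^ 2 := one_le_pow₀ hr
      have h6 := neg_abs_le (Real.log ‖F i z‖)
      have h7 : |Real.log ‖F i z‖| ≤ |Real.log ‖F i z‖| * r ^ 2 :=
        le_mul_of_one_le_right (abs_nonneg _) h5
      simp only [A]
      nlinarith
    have hex := fun i => exists_local_log (hF i) (hz i) hr0 (mul_pos (hA i) (by positivity)) (hb i)
      hfin.toFinset (fun ρ hρ => by
        obtain ⟨j, hj⟩ := mem_iUnion.1 (hfin.mem_toFinset.1 hρ)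
        exact hj.1) (fun ρ hρ h0 => hfin.mem_toFinset.2 (mem_iUnion.2 ⟨i, hρ, h0⟩))
    choose h hdiff hbd hlog using hex
    let H : ℂ → ℂ := fun s => ∑ i, c i * h i s
    have hHd : DifferentiableOn ℂ H (ball z r) :=
      DifferentiableOn.fun_sum fun i _ => (hdiff i).const_mul _
    have hev : (fun s => ∑ i, c i * logDeriv (F i) s) =ᶠ[𝓝 z] deriv H := by
      have h1 : ∀ᶠ s in 𝓝 z, ∀ i, F i s ≠ 0 :=
        eventually_all.2 fun i => (hF i).continuous.continuousAt.eventually_ne (hz i)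
      filter_upwards [h1, ball_mem_nhds z hr0] with s hs1 hs2
      have h2 : deriv H s = ∑ i, c i * deriv (h i) s := by
        have := HasDerivAt.fun_sum (u := Finset.univ) fun i _ =>
          (((hdiff i).differentiableAt (isOpen_ball.mem_nhds hs2)).hasDerivAt.const_mul (c i))
        exact this.deriv
      rw [h2]
      simp_rw [fun i => hlog i s hs2 (hs1 i), mul_add, Finset.sum_add_distrib, Finset.mul_sum]
      rw [Finset.sum_comm]
      have h3 : ∀ ρ, ∑ i, c i * ((analyticOrderNatAt (F i) ρ : ℂ) / (s - ρ)) = 0 := fun ρ => by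
        simp_rw [← mul_div_assoc, ← Finset.sum_div, hrel ρ, zero_div]
      simp [h3]
    rw [hev.iteratedDeriv_eq 2, ← iteratedDeriv_succ']
    have hcl : DiffContOnCl ℂ H (ball z (r / 2)) := by
      refine DifferentiableOn.diffContOnCl ?_
      rw [closure_ball z (by positivity)]
      exact hHd.mono (closedBall_subset_ball (by linarith))
    have h4 := norm_iteratedDeriv_le_of_forall_mem_sphere_norm_le (2 + 1) (half_pos hr0) hcl
      (C := ∑ i, ‖c i‖ * (2 * (A i * r ^ 2))) (fun s hs => by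
        refine (norm_sum_le _ _).trans (Finset.sum_le_sum fun i _ => ?_)
        rw [norm_mul]
        exact mul_le_mul_of_nonneg_left (hbd i s (sphere_subset_closedBall hs)) (norm_nonneg _))
    refine h4.trans (le_of_eq ?_)
    have h5 : ∑ i, ‖c i‖ * (2 * (A i * r ^ 2)) = (∑ i, ‖c i‖ * (2 * A i)) * r ^ 2 := by
      rw [Finset.sum_mul]
      exact Finset.sum_congr rfl fun i _ => by ring
    rw [h5]
    simp only [B]
    generalize (∑ i, ‖c i‖ * (2 * A i)) = S
    simp only [Nat.factorial]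
    field_simp
    norm_num
    ring
  have hlim : Tendsto (fun r : ℝ => B / r) atTop (𝓝 0) := tendsto_const_nhds.div_atTop tendsto_id
  have := ge_of_tendsto hlim (eventually_atTop.2 ⟨1, key⟩)
  exact norm_le_zero_iff.1 this

end Pool.Agent.Lib.MP_c04f8f_nt
end

-- part Pool.Agent.Lib.MP_c04f8f_nt.Growth
section

/-!
Growth of Dirichlet L-functions and of completed L-functions.
-/

set_option autoImplicit false

open Filter Topology Set Metric Complex MeasureTheory Asymptotics DirichletCharacter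

namespace Pool.Agent.Lib.MP_c04f8f_nt

variable {N : ℕ} [NeZero N]

theorem sum_range_zmod (g : ZMod N → ℂ) : ∑ k ∈ Finset.range N, g k = ∑ j, g j := by
  refine Finset.sum_bij' (fun k _ => (k : ZMod N)) (fun j _ => j.val) (by simp)
    (fun j _ => Finset.mem_range.2 (ZMod.val_lt j)) (fun k hk => ?_) (fun j _ => by simp)
    (fun _ _ => rfl)
  exact ZMod.val_cast_of_lt (Finset.mem_range.1 hk)

theorem norm_sum_range_le {χ : DirichletCharacter ℂ N} (hχ : χ ≠ 1) (n : ℕ) :
    ‖∑ k ∈ Finset.range n, χ k‖ ≤ N := by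
  induction n using Nat.strong_induction_on with
  | _ n ih =>
    rcases lt_or_ge n N with h | h
    · refine (norm_sum_le _ _).trans ?_
      calc ∑ k ∈ Finset.range n, ‖χ (k : ZMod N)‖ ≤ ∑ _k ∈ Finset.range n, (1 : ℝ) :=
            Finset.sum_le_sum fun k _ => χ.norm_le_one _
        _ = n := by simp
        _ ≤ N := by exact_mod_cast h.le
    · obtain ⟨m, rfl⟩ := Nat.exists_eq_add_of_le' h
      rw [Finset.sum_range_add]
      have h1 : ∑ k ∈ Finset.range N, χ ((m + k : ℕ) : ZMod N) = 0 := by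
        simp_rw [Nat.cast_add]
        rw [sum_range_zmod (fun j => χ ((m : ZMod N) + j))]
        exact (Equiv.sum_comp (Equiv.addLeft (m : ZMod N)) (fun j => χ j)).trans
          (χ.sum_eq_zero_of_ne_one hχ)
      rw [h1, add_zero]
      exact ih m (by have := NeZero.pos N; omega)

theorem norm_sum_Icc_le {χ : DirichletCharacter ℂ N} (hχ : χ ≠ 1) (n : ℕ) :
    ‖∑ k ∈ Finset.Icc 1 n, χ k‖ ≤ N + 1 := by
  have h1 : ∑ k ∈ Finset.Icc 1 n, χ (k : ZMod N) =
      ∑ k ∈ Finset.range (n + 1), χ (k : ZMod N) - χ ((0 : ℕ) : ZMod N) := by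
    rw [Finset.sum_range_succ', add_sub_cancel_right, Finset.range_eq_Ico,
      Finset.sum_Ico_add' (fun k : ℕ => χ (k : ZMod N)) 0 n 1]
    rfl
  rw [h1]
  exact (norm_sub_le _ _).trans (add_le_add (norm_sum_range_le hχ _) (χ.norm_le_one _))

theorem measurable_sum_floor (f : ℕ → ℂ) :
    Measurable fun t : ℝ => ∑ k ∈ Finset.Icc 1 ⌊t⌋₊, f k :=
  (measurable_from_nat (f := fun n => ∑ k ∈ Finset.Icc 1 n, f k)).comp Nat.measurable_floor

theorem LFunction_eq_integral {χ : DirichletCharacter ℂ N} (hχ : χ ≠ 1) {s : ℂ} (hs : 0 < s.re) :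
    LFunction χ s =
      s * ∫ t in Ioi (1 : ℝ), (∑ k ∈ Finset.Icc 1 ⌊t⌋₊, χ k) * (t : ℂ) ^ (-(s + 1)) := by
  let S : ℝ → ℂ := fun t => ∑ k ∈ Finset.Icc 1 ⌊t⌋₊, χ k
  let f : ℝ → ℂ := indicator (Ioi 1) S
  have hfb : ∀ t, ‖f t‖ ≤ N + 1 := fun t =>
    (norm_indicator_le_norm_self _ _).trans (norm_sum_Icc_le hχ _)
  have hfm : Measurable f := (measurable_sum_floor _).indicator measurableSet_Ioi
  have hmel : ∀ s : ℂ, mellin f (-s) = ∫ t in Ioi (1 : ℝ), S t * (t : ℂ) ^ (-(s + 1)) := by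
    intro s
    have e : ∀ t : ℝ, (t : ℂ) ^ (-s - 1) • f t =
        indicator (Ioi 1) (fun t : ℝ => S t * (t : ℂ) ^ (-(s + 1))) t := by
      intro t
      by_cases ht : t ∈ Ioi (1 : ℝ)
      · simp only [f, indicator_of_mem ht, smul_eq_mul]
        rw [mul_comm]
        congr 2
        ring
      · simp only [f, indicator_of_notMem ht, smul_zero]
    simp only [mellin, e]
    rw [setIntegral_indicator measurableSet_Ioi, Ioi_inter_Ioi]
    simp
  have hdiff : ∀ s : ℂ, 0 < s.re → DifferentiableAt ℂ (fun s => s * mellin f (-s)) s := by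
    intro s hs
    refine differentiableAt_id.mul ?_
    refine DifferentiableAt.comp s (g := mellin f) ?_ differentiableAt_id.neg
    refine mellin_differentiableAt_of_isBigO_rpow (a := 0) (b := -s.re - 1) ?_ ?_ (by simpa) ?_
      (by simp)
    · refine (LocallyIntegrable.locallyIntegrableOn ?_ _)
      exact (locallyIntegrable_const ((N : ℝ) + 1)).mono hfm.aestronglyMeasurable
        (Eventually.of_forall fun t => (hfb t).trans (le_abs_self _))
    · refine IsBigO.of_bound ((N : ℝ) + 1) (Eventually.of_forall fun t => ?_)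
      simpa using hfb t
    · refine IsBigO.of_bound 0 ?_
      filter_upwards [Ioo_mem_nhdsGT (zero_lt_one' ℝ)] with t ht
      have : t ∉ Ioi (1 : ℝ) := fun h => lt_asymm ht.2 h
      simp [f, indicator_of_notMem this]
  have hU : IsOpen {s : ℂ | 0 < s.re} := isOpen_lt continuous_const continuous_re
  have key := AnalyticOnNhd.eqOn_of_preconnected_of_eventuallyEq (𝕜 := ℂ) (f := LFunction χ)
    (g := fun s => s * mellin f (-s)) (U := {s : ℂ | 0 < s.re})
    (fun s _ => (differentiable_LFunction hχ).analyticAt s)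
    (DifferentiableOn.analyticOnNhd (fun s hs => (hdiff s hs).differentiableWithinAt) hU)
    (convex_halfSpace_re_gt 0).isPreconnected (z₀ := 2) (by simp) (by
      have h2 : ∀ᶠ s : ℂ in 𝓝 2, 1 < s.re :=
        (isOpen_lt continuous_const continuous_re).mem_nhds (by simp)
      filter_upwards [h2] with s hs
      rw [LFunction_eq_LSeries χ hs, hmel,
        LSeries_eq_mul_integral (fun n => χ n) (r := 0) le_rfl (by linarith)
          (LSeriesSummable_of_one_lt_re χ hs)]
      refine IsBigO.of_bound ((N : ℝ) + 1) (Eventually.of_forall fun n => ?_)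
      simpa using norm_sum_Icc_le hχ n)
  rw [key hs, ← hmel]

theorem norm_LFunction_le {χ : DirichletCharacter ℂ N} (hχ : χ ≠ 1) {s : ℂ} (hs : 1 / 2 ≤ s.re) :
    ‖LFunction χ s‖ ≤ 2 * (N + 1) * ‖s‖ := by
  rw [LFunction_eq_integral hχ (by linarith), norm_mul, mul_comm]
  refine mul_le_mul_of_nonneg_right ?_ (norm_nonneg _)
  have hint : IntegrableOn (fun t : ℝ => ((N : ℝ) + 1) * t ^ (-(3 / 2) : ℝ)) (Ioi 1) :=
    (integrableOn_Ioi_rpow_of_lt (by norm_num) zero_lt_one).const_mul _
  refine (norm_integral_le_of_norm_le hint ?_).trans ?_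
  · refine (ae_restrict_iff' measurableSet_Ioi).2 (Eventually.of_forall fun t ht => ?_)
    have ht1 : (1 : ℝ) < t := ht
    rw [norm_mul, norm_cpow_eq_rpow_re_of_pos (by linarith)]
    refine mul_le_mul (norm_sum_Icc_le hχ _) ?_ (by positivity) (by positivity)
    refine Real.rpow_le_rpow_of_exponent_le ht1.le ?_
    simp only [neg_re, add_re, one_re]
    linarith
  · rw [integral_const_mul, integral_Ioi_rpow_of_lt (by norm_num) zero_lt_one]
    norm_num
    linarith

theorem norm_Gamma_le {z : ℂ} (hz : 0 < z.re) : ‖Gamma z‖ ≤ Real.Gamma z.re := by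
  rw [Gamma_eq_integral hz, GammaIntegral, Real.Gamma_eq_integral hz]
  refine (norm_integral_le_integral_norm _).trans (le_of_eq ?_)
  refine setIntegral_congr_fun measurableSet_Ioi fun x hx => ?_
  simp only [norm_mul, norm_real, Real.norm_eq_abs, abs_of_pos (Real.exp_pos _)]
  rw [norm_cpow_eq_rpow_re_of_pos hx]
  simp

theorem real_Gamma_le {x : ℝ} (hx : 1 / 4 ≤ x) : Real.Gamma x ≤ Real.exp (8 * (1 + x) ^ 2) := by
  have h0 : 0 < x := by linarith
  have h1 : Real.Gamma (x + 2) = (x + 1) * x * Real.Gamma x := by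
    rw [show x + 2 = (x + 1) + 1 by ring, Real.Gamma_add_one (by linarith),
      Real.Gamma_add_one h0.ne', mul_assoc]
  have hpos := Real.Gamma_pos_of_pos h0
  have h2 : Real.Gamma x ≤ 4 * Real.Gamma (x + 2) := by
    rw [h1]
    have : 1 ≤ 4 * ((x + 1) * x) := by nlinarith
    nlinarith
  set n := ⌈x⌉₊ with hn
  have hxn : x ≤ n := Nat.le_ceil x
  have hnx : (n : ℝ) < x + 1 := Nat.ceil_lt_add_one h0.le
  have h3 : Real.Gamma (x + 2) ≤ Real.Gamma (((n + 1 : ℕ) : ℝ) + 1) := by
    refine Real.Gamma_strictMonoOn_Ici.monotoneOn (by simp only [mem_Ici]; linarith) ?_ ?_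
    · simp only [mem_Ici]
      push_cast
      linarith
    · push_cast
      linarith
  rw [Real.Gamma_nat_eq_factorial] at h3
  have h4 : (((n + 1).factorial : ℕ) : ℝ) ≤ Real.exp (((n : ℝ) + 1) ^ 2) := by
    have a1 : (((n + 1).factorial : ℕ) : ℝ) ≤ ((n : ℝ) + 1) ^ (n + 1) := by
      exact_mod_cast Nat.factorial_le_pow (n + 1)
    have a2 : (n : ℝ) + 1 ≤ Real.exp ((n : ℝ) + 1) := by
      linarith [Real.add_one_le_exp ((n : ℝ) + 1)]
    refine a1.trans ((pow_le_pow_left₀ (by positivity) a2 _).trans (le_of_eq ?_))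
    rw [← Real.exp_nat_mul]
    push_cast
    ring_nf
  have h5 : (4 : ℝ) ≤ Real.exp 3 := by linarith [Real.add_one_le_exp (3 : ℝ)]
  calc Real.Gamma x ≤ 4 * Real.exp (((n : ℝ) + 1) ^ 2) := by linarith
    _ ≤ Real.exp 3 * Real.exp (((n : ℝ) + 1) ^ 2) := by gcongr
    _ ≤ _ := by
      rw [← Real.exp_add, Real.exp_le_exp]
      have : ((n : ℝ) + 1) ^ 2 ≤ (x + 2) ^ 2 := pow_le_pow_left₀ (by positivity) (by linarith) _
      nlinarith

theorem norm_Gammaℝ_le {s : ℂ} (hs : 1 / 2 ≤ s.re) : ‖Gammaℝ s‖ ≤ Real.exp (8 * (1 + ‖s‖) ^ 2) := by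
  rw [Gammaℝ_def, norm_mul, norm_cpow_eq_rpow_re_of_pos Real.pi_pos]
  have hre : (s / 2).re = s.re / 2 := by simp
  have h1 : Real.pi ^ (-s / 2).re ≤ 1 := by
    refine Real.rpow_le_one_of_one_le_of_nonpos (by linarith [Real.pi_gt_three]) ?_
    have : (-s / 2).re = -s.re / 2 := by simp
    rw [this]
    linarith
  have h2 : ‖Gamma (s / 2)‖ ≤ Real.exp (8 * (1 + ‖s‖) ^ 2) := by
    refine (norm_Gamma_le (by rw [hre]; linarith)).trans ?_
    rw [hre]
    refine (real_Gamma_le (by linarith)).trans (Real.exp_le_exp.2 ?_)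
    have := re_le_norm s
    have h3 : (1 + s.re / 2) ^ 2 ≤ (1 + ‖s‖) ^ 2 := pow_le_pow_left₀ (by linarith) (by linarith) _
    linarith
  calc _ ≤ 1 * Real.exp (8 * (1 + ‖s‖) ^ 2) := by gcongr
    _ = _ := one_mul _

omit [NeZero N] in
theorem gammaFactor_ne_zero (χ : DirichletCharacter ℂ N) {s : ℂ} (hs : 0 < s.re) :
    gammaFactor χ s ≠ 0 := by
  unfold gammaFactor
  split_ifs
  · exact Gammaℝ_ne_zero_of_re_pos hs
  · exact Gammaℝ_ne_zero_of_re_pos (by simp only [add_re, one_re]; linarith)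

theorem completed_eq (χ : DirichletCharacter ℂ N) {s : ℂ} (hs : 0 < s.re) :
    completedLFunction χ s = gammaFactor χ s * LFunction χ s := by
  have h0 : s ≠ 0 := by
    rintro rfl
    simp at hs
  rw [LFunction_eq_completed_div_gammaFactor χ s (Or.inl h0)]
  field_simp [gammaFactor_ne_zero χ hs]

omit [NeZero N] in
theorem norm_gammaFactor_le (χ : DirichletCharacter ℂ N) {s : ℂ} (hs : 1 / 2 ≤ s.re) :
    ‖gammaFactor χ s‖ ≤ Real.exp (32 * (1 + ‖s‖) ^ 2) := by
  have h0 := norm_nonneg s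
  unfold gammaFactor
  split_ifs
  · exact (norm_Gammaℝ_le hs).trans (Real.exp_le_exp.2 (by nlinarith))
  · refine (norm_Gammaℝ_le (by simp only [add_re, one_re]; linarith)).trans
      (Real.exp_le_exp.2 ?_)
    have h1 : ‖s + 1‖ ≤ ‖s‖ + 1 := by simpa using norm_add_le s 1
    have h2 : (1 + ‖s + 1‖) ^ 2 ≤ (2 * (1 + ‖s‖)) ^ 2 :=
      pow_le_pow_left₀ (by positivity) (by linarith) _
    nlinarith

theorem norm_completed_le_right {χ : DirichletCharacter ℂ N} (hχ : χ ≠ 1) {s : ℂ}
    (hs : 1 / 2 ≤ s.re) :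
    ‖completedLFunction χ s‖ ≤ Real.exp ((34 + 2 * N) * (1 + ‖s‖) ^ 2) := by
  rw [completed_eq χ (by linarith), norm_mul]
  have h0 := norm_nonneg s
  have h1 : ‖LFunction χ s‖ ≤ Real.exp ((2 + 2 * N) * (1 + ‖s‖) ^ 2) := by
    refine (norm_LFunction_le hχ hs).trans ?_
    have := Real.add_one_le_exp ((2 + 2 * N) * (1 + ‖s‖) ^ 2)
    have h2 : ‖s‖ ≤ (1 + ‖s‖) ^ 2 := by nlinarith
    have h3 : (0 : ℝ) ≤ N := Nat.cast_nonneg N
    nlinarith
  refine (mul_le_mul (norm_gammaFactor_le χ hs) h1 (norm_nonneg _) (by positivity)).trans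
    (le_of_eq ?_)
  rw [← Real.exp_add]
  ring_nf

theorem completed_growth {χ : DirichletCharacter ℂ N} (hχ : χ ≠ 1) (hp : IsPrimitive χ) :
    ∃ C : ℝ, ∀ s, ‖completedLFunction χ s‖ ≤ Real.exp (C * (1 + ‖s‖) ^ 2) := by
  have hN : (0 : ℝ) < N := by exact_mod_cast NeZero.pos N
  refine ⟨4 * (34 + 2 * N) + 2 * N + ‖rootNumber χ‖, fun s => ?_⟩
  have h0 := norm_nonneg s
  have hW := norm_nonneg (rootNumber χ)
  have hq : 1 ≤ (1 + ‖s‖) ^ 2 := one_le_pow₀ (by linarith)
  rcases le_total (1 / 2) s.re with hs | hs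
  · refine (norm_completed_le_right hχ hs).trans (Real.exp_le_exp.2 ?_)
    nlinarith
  · have h1 := hp.completedLFunction_one_sub (1 - s)
    rw [sub_sub_cancel] at h1
    rw [h1, norm_mul, norm_mul]
    have h2 := norm_completed_le_right (χ := χ⁻¹) (inv_ne_one.2 hχ) (s := 1 - s)
      (by simp only [sub_re, one_re]; linarith)
    have h3 : ‖1 - s‖ ≤ 1 + ‖s‖ := by simpa using norm_sub_le 1 s
    have h4 : (1 + ‖1 - s‖) ^ 2 ≤ (2 * (1 + ‖s‖)) ^ 2 :=
      pow_le_pow_left₀ (by positivity) (by linarith) _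
    have h5 : ‖completedLFunction χ⁻¹ (1 - s)‖ ≤ Real.exp (4 * (34 + 2 * N) * (1 + ‖s‖) ^ 2) :=
      h2.trans (Real.exp_le_exp.2 (by nlinarith))
    have h6 : ‖(N : ℂ) ^ (1 - s - 1 / 2)‖ ≤ Real.exp (2 * N * (1 + ‖s‖) ^ 2) := by
      rw [← ofReal_natCast, norm_cpow_eq_rpow_re_of_pos hN, Real.rpow_def_of_pos hN,
        Real.exp_le_exp]
      have a1 : Real.log N ≤ N := (Real.log_le_sub_one_of_pos hN).trans (by linarith)
      have a2 : 0 ≤ Real.log N := Real.log_natCast_nonneg N
      have a3 : (1 - s - 1 / 2).re = 1 / 2 - s.re := by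
        simp only [sub_re, one_re, div_ofNat_re]
        ring
      have a4 : -s.re ≤ ‖s‖ := (neg_le_abs _).trans (abs_re_le_norm s)
      rw [a3]
      have a5 : 1 / 2 - s.re ≤ 2 * (1 + ‖s‖) ^ 2 := by nlinarith
      calc Real.log N * (1 / 2 - s.re) ≤ N * (2 * (1 + ‖s‖) ^ 2) :=
            mul_le_mul a1 a5 (by linarith) hN.le
        _ = _ := by ring
    have h7 : ‖rootNumber χ‖ ≤ Real.exp (‖rootNumber χ‖ * (1 + ‖s‖) ^ 2) := by
      have := Real.add_one_le_exp (‖rootNumber χ‖ * (1 + ‖s‖) ^ 2)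
      nlinarith
    refine (mul_le_mul (mul_le_mul h6 h7 hW (by positivity)) h5 (norm_nonneg _)
      (by positivity)).trans (le_of_eq ?_)
    rw [← Real.exp_add, ← Real.exp_add]
    ring_nf

end Pool.Agent.Lib.MP_c04f8f_nt
end

-- part Pool.Agent.Lib.MP_c04f8f_nt.Orders
section

/-!
Orders of vanishing of Dirichlet L-functions: symmetry under `ρ ↦ 1 - conj ρ` and passage to the
primitive character.
-/

set_option autoImplicit false

open Filter Topology Set Metric Complex DirichletCharacter ComplexConjugate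

namespace Pool.Agent.Lib.MP_c04f8f_nt

theorem analyticAt_conj_conj {g : ℂ → ℂ} {z : ℂ} (hg : AnalyticAt ℂ g (conj z)) :
    AnalyticAt ℂ (fun s => conj (g (conj s))) z := by
  rw [analyticAt_iff_eventually_differentiableAt] at hg ⊢
  have h1 : Tendsto (fun s : ℂ => conj s) (𝓝 z) (𝓝 (conj z)) := continuous_conj.continuousAt
  filter_upwards [h1.eventually hg] with w hw
  have := hw.conj_conj
  rw [conj_conj] at this
  exact this

theorem order_conj {f : ℂ → ℂ} (hf : Differentiable ℂ f) {z₀ : ℂ} (h0 : f z₀ ≠ 0) (z : ℂ) :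
    analyticOrderNatAt (fun s => conj (f (conj s))) z = analyticOrderNatAt f (conj z) := by
  obtain ⟨g, hg, hne, heq⟩ := exists_factor_one hf h0 (conj z)
  have h1 : analyticOrderAt (fun s => conj (f (conj s))) z = analyticOrderNatAt f (conj z) := by
    rw [(analyticAt_conj_conj (hf.analyticAt _)).analyticOrderAt_eq_natCast]
    refine ⟨fun s => conj (g (conj s)), analyticAt_conj_conj (hg.analyticAt _), by simpa using hne,
      Eventually.of_forall fun s => ?_⟩
    rw [heq (conj s)]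
    simp
  rw [analyticOrderNatAt, h1]
  rfl

variable {N : ℕ} [NeZero N]

theorem LFunction_two_ne_zero (χ : DirichletCharacter ℂ N) : LFunction χ 2 ≠ 0 :=
  LFunction_ne_zero_of_one_le_re χ (Or.inr (by norm_num)) (by simp)

theorem LFunction_inv_eq {χ : DirichletCharacter ℂ N} (hχ : χ ≠ 1) :
    LFunction χ⁻¹ = fun s => conj (LFunction χ (conj s)) := by
  refine AnalyticOnNhd.eq_of_eventuallyEq (𝕜 := ℂ) (z₀ := 2)
    (fun s _ => (differentiable_LFunction (inv_ne_one.2 hχ)).analyticAt s)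
    (fun s _ => analyticAt_conj_conj ((differentiable_LFunction hχ).analyticAt _)) ?_
  have h2 : ∀ᶠ s : ℂ in 𝓝 2, 1 < s.re :=
    (isOpen_lt continuous_const continuous_re).mem_nhds (by simp)
  filter_upwards [h2] with s hs
  rw [LFunction_eq_LSeries _ hs, LFunction_eq_LSeries _ (by simpa using hs), LSeries, LSeries,
    conj_tsum]
  refine tsum_congr fun n => ?_
  rcases eq_or_ne n 0 with rfl | hn
  · simp
  · rw [LSeries.term_of_ne_zero hn, LSeries.term_of_ne_zero hn, map_div₀,
      cpow_conj _ _ (by rw [natCast_arg]; exact Real.pi_ne_zero.symm), conj_conj, conj_natCast]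
    congr 1
    exact (MulChar.star_apply' χ _).symm

omit [NeZero N] in
theorem analyticAt_gammaFactor (χ : DirichletCharacter ℂ N) {s : ℂ} (hs : 0 < s.re) :
    AnalyticAt ℂ (gammaFactor χ) s := by
  have key : ∀ w : ℂ, 0 < w.re → AnalyticAt ℂ Gammaℝ w := by
    intro w hw
    have h1 := (differentiable_Gammaℝ_inv.analyticAt w).inv
      (inv_ne_zero (Gammaℝ_ne_zero_of_re_pos hw))
    have e : (fun s => (Gammaℝ s)⁻¹)⁻¹ = Gammaℝ := by
      funext s
      simp
    rwa [e] at h1
  rcases χ.even_or_odd with h | h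
  · have e : gammaFactor χ = Gammaℝ := funext h.gammaFactor_def
    rw [e]
    exact key s hs
  · have e : gammaFactor χ = fun s => Gammaℝ (s + 1) := funext h.gammaFactor_def
    rw [e]
    exact (key (s + 1) (by simp only [add_re, one_re]; linarith)).comp_of_eq
      (f := fun s : ℂ => s + 1) (by fun_prop) rfl

theorem completed_eventuallyEq (χ : DirichletCharacter ℂ N) {s : ℂ} (hs : 0 < s.re) :
    completedLFunction χ =ᶠ[𝓝 s] fun w => gammaFactor χ w * LFunction χ w := by
  have h2 : ∀ᶠ w : ℂ in 𝓝 s, 0 < w.re :=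
    (isOpen_lt continuous_const continuous_re).mem_nhds hs
  filter_upwards [h2] with w hw using completed_eq χ hw

theorem order_completed {χ : DirichletCharacter ℂ N} (hχ : χ ≠ 1) {s : ℂ} (hs : 0 < s.re) :
    analyticOrderNatAt (completedLFunction χ) s = analyticOrderNatAt (LFunction χ) s := by
  rw [analyticOrderNatAt, analyticOrderAt_congr (completed_eventuallyEq χ hs)]
  exact order_mul_of_ne_zero (analyticAt_gammaFactor χ hs)
    ((differentiable_LFunction hχ).analyticAt s) (gammaFactor_ne_zero χ hs)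

theorem completed_ne_zero {χ : DirichletCharacter ℂ N} (hχ : χ ≠ 1) {s : ℂ} (hs : 1 ≤ s.re) :
    completedLFunction χ s ≠ 0 := by
  rw [completed_eq χ (by linarith)]
  exact mul_ne_zero (gammaFactor_ne_zero χ (by linarith))
    (LFunction_ne_zero_of_one_le_re χ (Or.inl hχ) hs)

theorem order_completed_symm {χ : DirichletCharacter ℂ N} (hχ : χ ≠ 1) (hp : IsPrimitive χ)
    {ρ : ℂ} (hρ : ρ.re < 1) :
    analyticOrderNatAt (completedLFunction χ) ρ = analyticOrderNatAt (LFunction χ) (1 - conj ρ) := by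
  have hW : rootNumber χ ≠ 0 := by
    intro h
    have h1 := hp.completedLFunction_one_sub (-1)
    rw [h, mul_zero, zero_mul] at h1
    exact completed_ne_zero hχ (by norm_num) h1
  have e : completedLFunction χ = fun s => ((N : ℂ) ^ (1 - s - 1 / 2) * rootNumber χ) *
      (completedLFunction χ⁻¹ ∘ fun s => 1 - s) s := by
    funext s
    have h1 := hp.completedLFunction_one_sub (1 - s)
    rwa [sub_sub_cancel] at h1
  have hd := differentiable_completedLFunction (inv_ne_one.2 hχ)
  have hN : (N : ℂ) ≠ 0 := NeZero.ne _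
  have h2 : analyticOrderNatAt (completedLFunction χ) ρ =
      analyticOrderNatAt (completedLFunction χ⁻¹ ∘ fun s => 1 - s) ρ := by
    conv_lhs => rw [e]
    refine order_mul_of_ne_zero ?_ ?_ (mul_ne_zero ?_ hW)
    · apply Differentiable.analyticAt
      refine Differentiable.mul_const (Differentiable.const_cpow (by fun_prop) (Or.inl hN)) _
    · exact (hd.comp (by fun_prop)).analyticAt ρ
    · simp [hN]
  have h3 : analyticOrderNatAt (completedLFunction χ⁻¹ ∘ fun s => 1 - s) ρ =
      analyticOrderNatAt (completedLFunction χ⁻¹) (1 - ρ) := by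
    unfold analyticOrderNatAt
    rw [analyticOrderAt_comp_of_deriv_ne_zero (by fun_prop) (by simp)]
  rw [h2, h3, order_completed (inv_ne_one.2 hχ) (by simp only [sub_re, one_re]; linarith),
    LFunction_inv_eq hχ, order_conj (differentiable_LFunction hχ) (LFunction_two_ne_zero χ)]
  simp

instance (χ : DirichletCharacter ℂ N) : NeZero χ.conductor := ⟨χ.conductor_ne_zero⟩

omit [NeZero N] in
theorem primitive_ne_one {χ : DirichletCharacter ℂ N} (hχ : χ ≠ 1) :
    χ.primitiveCharacter ≠ 1 := by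
  intro h
  apply hχ
  rw [← χ.changeLevel_primitiveCharacter, h, map_one]

theorem order_primitive {χ : DirichletCharacter ℂ N} (hχ : χ ≠ 1) {s : ℂ} (hs : 0 < s.re) :
    analyticOrderNatAt (LFunction χ) s = analyticOrderNatAt (LFunction χ.primitiveCharacter) s := by
  have e : LFunction χ = fun s => (∏ p ∈ N.primeFactors, (1 - χ.primitiveCharacter p *
      (p : ℂ) ^ (-s))) * LFunction χ.primitiveCharacter s := by
    funext s
    conv_lhs => rw [← χ.changeLevel_primitiveCharacter]
    rw [LFunction_changeLevel _ _ (Or.inl (primitive_ne_one hχ)), mul_comm]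
  conv_lhs => rw [e]
  refine order_mul_of_ne_zero ?_ ((differentiable_LFunction (primitive_ne_one hχ)).analyticAt s) ?_
  · apply Differentiable.analyticAt
    refine Differentiable.fun_finsetProd fun p hp => ?_
    have : (p : ℂ) ≠ 0 := by exact_mod_cast (Nat.prime_of_mem_primeFactors hp).ne_zero
    exact (differentiable_const _).sub
      ((Differentiable.const_cpow (by fun_prop) (Or.inl this)).const_mul _)
  · refine Finset.prod_ne_zero_iff.2 fun p hp => ?_
    have hp' := Nat.prime_of_mem_primeFactors hp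
    have h1 : ‖χ.primitiveCharacter p * (p : ℂ) ^ (-s)‖ < 1 := by
      rw [norm_mul, norm_natCast_cpow_of_pos hp'.pos]
      have a1 : (p : ℝ) ^ (-s).re < 1 :=
        Real.rpow_lt_one_of_one_lt_of_neg (by exact_mod_cast hp'.one_lt) (by simpa using hs)
      have a2 := χ.primitiveCharacter.norm_le_one p
      have a3 : 0 ≤ (p : ℝ) ^ (-s).re := by positivity
      nlinarith
    intro h
    rw [sub_eq_zero] at h
    rw [← h] at h1
    simp at h1

end Pool.Agent.Lib.MP_c04f8f_nt
end

-- part Pool.Agent.Lib.MP_c04f8f_nt.Grosswald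
section

/-!
If a linear combination of the zero divisors of the L-functions modulo `q` vanishes on the half
strip `1/2 ≤ re s < 1`, the same combination of characters vanishes.
-/

set_option autoImplicit false

open Filter Topology Set Metric Complex DirichletCharacter ComplexConjugate ArithmeticFunction

namespace Pool.Agent.Lib.MP_c04f8f_nt

theorem poly_limit {p : Polynomial ℂ} (h : Tendsto (fun x : ℝ => p.eval (x : ℂ)) atTop (𝓝 0)) :
    p = 0 := by
  by_cases hd : 0 < p.degree
  · have h1 := p.tendsto_norm_atTop hd (l := atTop) (z := fun x : ℝ => (x : ℂ))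
      (by simpa using tendsto_abs_atTop_atTop)
    exact absurd h1 (not_tendsto_atTop_of_tendsto_nhds h.norm)
  · rw [Polynomial.eq_C_of_degree_le_zero (not_lt.1 hd)] at h ⊢
    simp only [Polynomial.eval_C] at h
    rw [tendsto_nhds_unique tendsto_const_nhds h, Polynomial.C_0]

theorem tendsto_pow_mul_LSeries {f : ℕ → ℂ} (h0 : f 0 = 0) (h1 : f 1 = 0)
    (ha : LSeries.abscissaOfAbsConv f < ⊤) (k : ℝ) (j : ℕ) :
    Tendsto (fun x : ℝ => (x : ℂ) ^ j * LSeries f ((x + k : ℝ) : ℂ)) atTop (𝓝 0) := by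
  have h2 := (LSeries.tendsto_cpow_mul_atTop (f := f) (n := 1) (fun m hm => by
    interval_cases m <;> assumption) ha).comp (tendsto_atTop_add_const_right _ k tendsto_id)
  have h3 : Tendsto (fun x : ℝ => x ^ j * (2 : ℝ) ^ (-(x + k))) atTop (𝓝 0) := by
    have hl : 0 < Real.log 2 := Real.log_pos one_lt_two
    have a1 := tendsto_rpow_mul_exp_neg_mul_atTop_nhds_zero j _ hl
    have a3 := a1.mul_const ((2 : ℝ) ^ (-k))
    rw [zero_mul] at a3
    refine a3.congr fun x => ?_
    rw [Real.rpow_natCast, neg_add, Real.rpow_add two_pos, Real.rpow_def_of_pos two_pos (-x)]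
    ring_nf
  have h4 := (continuous_ofReal.tendsto _).comp h3
  have h5 := h4.mul h2
  rw [ofReal_zero, zero_mul] at h5
  refine h5.congr fun x => ?_
  simp only [Function.comp, id]
  rw [ofReal_mul, ofReal_cpow zero_le_two, ofReal_neg, cpow_neg]
  have h6 : ((2 : ℝ) : ℂ) ^ ((x + k : ℝ) : ℂ) ≠ 0 := by simp
  have h7 : (((1 : ℕ) : ℂ) + 1) = ((2 : ℝ) : ℂ) := by norm_num
  rw [h7]
  field_simp
  push_cast
  ring

theorem tendsto_poly_mul_LSeries {f : ℕ → ℂ} (h0 : f 0 = 0) (h1 : f 1 = 0)
    (ha : LSeries.abscissaOfAbsConv f < ⊤) (k : ℝ) (p : Polynomial ℂ) :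
    Tendsto (fun x : ℝ => p.eval (x : ℂ) * LSeries f ((x + k : ℝ) : ℂ)) atTop (𝓝 0) := by
  have h := tendsto_finsetSum (Finset.range (p.natDegree + 1))
    fun j _ => (tendsto_pow_mul_LSeries h0 h1 ha k j).const_mul (p.coeff j)
  simp only [mul_zero, Finset.sum_const_zero] at h
  refine h.congr fun x => ?_
  rw [Polynomial.eval_eq_sum_range, Finset.sum_mul]
  exact Finset.sum_congr rfl fun j _ => by ring

theorem logDeriv_Gammaℝ_add_two {s : ℂ} (hs : 0 < s.re) :
    logDeriv Gammaℝ (s + 2) = logDeriv Gammaℝ s + 1 / s := by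
  have hd : ∀ w : ℂ, 0 < w.re → DifferentiableAt ℂ Gammaℝ w := fun w hw => by
    have h := (analyticAt_gammaFactor (1 : DirichletCharacter ℂ 1) hw).differentiableAt
    have e : gammaFactor (1 : DirichletCharacter ℂ 1) = Gammaℝ :=
      funext (Even.gammaFactor_def (MulChar.one_apply isUnit_one.neg))
    rwa [e] at h
  have h0 : s ≠ 0 := by
    rintro rfl
    simp at hs
  have h1 : logDeriv (Gammaℝ ∘ fun w => w + 2) s = logDeriv Gammaℝ (s + 2) := by
    rw [logDeriv_comp (hd _ (by simp only [add_re, re_ofNat]; linarith)) (by fun_prop)]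
    simp
  have h2 : (Gammaℝ ∘ fun w => w + 2) =ᶠ[𝓝 s] fun w => (Gammaℝ w * w) * (1 / 2 / Real.pi) := by
    filter_upwards [isOpen_ne.mem_nhds h0] with w hw
    simp only [Function.comp]
    rw [Gammaℝ_add_two hw]
    ring
  rw [← h1, (logDeriv_congr_nhds h2).self_of_nhds, logDeriv_mul_const _ _ (by simp),
    logDeriv_mul (g := fun w => w) s (Gammaℝ_ne_zero_of_re_pos hs) h0 (hd s hs)
      differentiableAt_id, logDeriv_id']

variable {N : ℕ} [NeZero N]

omit [NeZero N] in
open scoped Classical in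
theorem logDeriv_gammaFactor_add_two (χ : DirichletCharacter ℂ N) {s : ℂ} (hs : 0 < s.re) :
    logDeriv (gammaFactor χ) (s + 2) =
      logDeriv (gammaFactor χ) s + if χ.Even then 1 / s else 1 / (s + 1) := by
  rcases χ.even_or_odd with h | h
  · have e : gammaFactor χ = Gammaℝ := funext h.gammaFactor_def
    rw [e, if_pos h]
    exact logDeriv_Gammaℝ_add_two hs
  · have e : gammaFactor χ = fun s => Gammaℝ (s + 1) := funext h.gammaFactor_def
    have e2 : ∀ w, logDeriv (fun s => Gammaℝ (s + 1)) w = logDeriv Gammaℝ (w + 1) := fun w => by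
      simp only [logDeriv_apply, deriv_comp_add_const]
    rw [e, if_neg h.not_even, e2, e2, add_right_comm]
    exact logDeriv_Gammaℝ_add_two (by simp only [add_re, one_re]; linarith)

theorem logDeriv_LFunction (χ : DirichletCharacter ℂ N) {s : ℂ} (hs : 1 < s.re) :
    logDeriv (LFunction χ) s = -LSeries (fun n => χ n * Λ n) s := by
  have := LSeries_twist_vonMangoldt_eq χ hs
  rw [logDeriv_apply, deriv_LFunction_eq_deriv_LSeries χ hs, LFunction_eq_LSeries χ hs]
  have e : (fun n : ℕ => χ n * (Λ n : ℂ)) = (fun n : ℕ => χ n) * fun n : ℕ => (Λ n : ℂ) := rfl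
  rw [e, this]
  ring

theorem logDeriv_completed {χ : DirichletCharacter ℂ N} (hχ : χ ≠ 1) {s : ℂ} (hs : 1 < s.re) :
    logDeriv (completedLFunction χ) s =
      logDeriv (gammaFactor χ) s - LSeries (fun n => χ n * Λ n) s := by
  rw [(logDeriv_congr_nhds (completed_eventuallyEq χ (by linarith))).self_of_nhds,
    logDeriv_mul s (gammaFactor_ne_zero χ (by linarith))
      (LFunction_ne_zero_of_one_le_re χ (Or.inl hχ) hs.le)
      (analyticAt_gammaFactor χ (by linarith)).differentiableAt (differentiable_LFunction hχ s),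
    logDeriv_LFunction χ hs, sub_eq_add_neg]

theorem grosswald {q : ℕ} [NeZero q] (c : DirichletCharacter ℂ q → ℂ) (hc : c 1 = 0)
    (h : ∀ ρ : ℂ, 1 / 2 ≤ ρ.re → ρ.re < 1 → ρ ≠ 1 / 2 →
      ∑ χ, c χ * (analyticOrderNatAt (LFunction χ) ρ : ℂ) = 0) (x : ZMod q) :
    ∑ χ, c χ * χ x = 0 := by
  classical
  by_cases hx : IsUnit x
  swap
  · exact Finset.sum_eq_zero fun χ _ => by rw [χ.map_nonunit hx, mul_zero]
  let F : DirichletCharacter ℂ q → ℂ → ℂ := fun χ =>
    if χ = 1 then fun _ => 1 else completedLFunction χ.primitiveCharacter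
  have hF : ∀ χ, χ ≠ 1 → F χ = completedLFunction χ.primitiveCharacter := fun χ hχ => if_neg hχ
  have hF1 : F 1 = fun _ => 1 := if_pos rfl
  have hFd : ∀ χ, Differentiable ℂ (F χ) := fun χ => by
    rcases eq_or_ne χ 1 with rfl | hχ
    · rw [hF1]; fun_prop
    · rw [hF χ hχ]; exact differentiable_completedLFunction (primitive_ne_one hχ)
  have hFne : ∀ χ, ∀ s : ℂ, 1 ≤ s.re → F χ s ≠ 0 := fun χ s hs => by
    rcases eq_or_ne χ 1 with rfl | hχ
    · rw [hF1]; exact one_ne_zero
    · rw [hF χ hχ]; exact completed_ne_zero (primitive_ne_one hχ) hs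
  have hgr : ∀ χ, ∃ C : ℝ, ∀ s, ‖F χ s‖ ≤ Real.exp (C * (1 + ‖s‖) ^ 2) := fun χ => by
    rcases eq_or_ne χ 1 with rfl | hχ
    · exact ⟨0, fun s => by simp [hF1]⟩
    · rw [hF χ hχ]
      exact completed_growth (primitive_ne_one hχ) χ.primitiveCharacter_isPrimitive
  have h' : ∀ ρ : ℂ, 1 / 2 ≤ ρ.re → ρ ≠ 1 / 2 →
      ∑ χ, c χ * (analyticOrderNatAt (LFunction χ) ρ : ℂ) = 0 := fun ρ hρ hρ2 => by
    rcases lt_or_ge ρ.re 1 with h1 | h1
    · exact h ρ hρ h1 hρ2
    · refine Finset.sum_eq_zero fun χ _ => ?_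
      rcases eq_or_ne χ 1 with rfl | hχ
      · rw [hc, zero_mul]
      · rw [analyticOrderNatAt, analyticOrderAt_eq_zero.2
          (Or.inr (LFunction_ne_zero_of_one_le_re χ (Or.inl hχ) h1))]
        simp
  have hrel : ∀ ρ, ρ ≠ 1 / 2 → ∑ χ, c χ * (analyticOrderNatAt (F χ) ρ : ℂ) = 0 := fun ρ hρ2 => by
    rcases le_total (1 / 2) ρ.re with hρ | hρ
    · rw [← h' ρ hρ hρ2]
      refine Finset.sum_congr rfl fun χ _ => ?_
      rcases eq_or_ne χ 1 with rfl | hχ
      · rw [hc, zero_mul, zero_mul]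
      · rw [hF χ hχ, order_completed (primitive_ne_one hχ) (by linarith),
          order_primitive hχ (by linarith)]
    · have hρ' : 1 / 2 ≤ (1 - conj ρ).re := by
        simp only [sub_re, one_re, conj_re]
        linarith
      have hρ3 : 1 - conj ρ ≠ 1 / 2 := fun e => hρ2 (by
        have e2 : conj ρ = 1 / 2 := by linear_combination -e
        rw [← conj_conj ρ, e2]
        simp [map_ofNat])
      rw [← h' _ hρ' hρ3]
      refine Finset.sum_congr rfl fun χ _ => ?_
      rcases eq_or_ne χ 1 with rfl | hχ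
      · rw [hc, zero_mul, zero_mul]
      · rw [hF χ hχ, order_completed_symm (primitive_ne_one hχ) χ.primitiveCharacter_isPrimitive
          (by linarith), order_primitive hχ (by linarith)]
  let R : ℂ := ∑ χ, c χ * (analyticOrderNatAt (F χ) (1 / 2) : ℂ)
  let F' : Option (DirichletCharacter ℂ q) → ℂ → ℂ := fun i => i.elim (fun s => s - 1 / 2) F
  let c' : Option (DirichletCharacter ℂ q) → ℂ := fun i => i.elim (-R) c
  have hhalf : ∀ s : ℂ, 1 < s.re → s - 1 / 2 ≠ 0 := fun s hs e => by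
    have := congrArg re e
    simp only [sub_re, div_ofNat_re, one_re, zero_re] at this
    linarith
  have hFd' : ∀ i, Differentiable ℂ (F' i) := fun i => by
    cases i with
    | none => exact differentiable_id.sub_const _
    | some χ => exact hFd χ
  have hFne' : ∀ i, ∀ s : ℂ, 1 < s.re → F' i s ≠ 0 := fun i s hs => by
    cases i with
    | none => exact hhalf s hs
    | some χ => exact hFne χ s hs.le
  have hgr' : ∀ i, ∃ C : ℝ, ∀ s, ‖F' i s‖ ≤ Real.exp (C * (1 + ‖s‖) ^ 2) := fun i => by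
    cases i with
    | none =>
      refine ⟨1, fun s => ?_⟩
      have a1 : ‖s - 1 / 2‖ ≤ ‖s‖ + 1 / 2 := by simpa using norm_sub_le s (1 / 2)
      have a2 := Real.add_one_le_exp (1 * (1 + ‖s‖) ^ 2)
      have a3 := norm_nonneg s
      change ‖s - 1 / 2‖ ≤ _
      nlinarith
    | some χ => exact hgr χ
  have hrel' : ∀ ρ, ∑ i, c' i * (analyticOrderNatAt (F' i) ρ : ℂ) = 0 := fun ρ => by
    rw [Fintype.sum_option]
    change -R * (analyticOrderNatAt (fun s : ℂ => s - 1 / 2) ρ : ℂ) +
      ∑ χ, c χ * (analyticOrderNatAt (F χ) ρ : ℂ) = 0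
    rcases eq_or_ne ρ (1 / 2) with rfl | hρ
    · rw [analyticOrderNatAt, analyticOrderAt_id_sub_const_self]
      simp [R]
    · rw [analyticOrderNatAt, analyticOrderAt_id_sub_const_of_ne hρ, hrel ρ hρ]
      simp
  let K : ℂ → ℂ := fun s => ∑ i, c' i * logDeriv (F' i) s
  have hKe : ∀ s, K s = -R / (s - 1 / 2) + ∑ χ, c χ * logDeriv (F χ) s := fun s => by
    simp only [K]
    rw [Fintype.sum_option]
    change -R * logDeriv (fun s : ℂ => s - 1 / 2) s + ∑ χ, c χ * logDeriv (F χ) s = _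
    rw [logDeriv_apply]
    simp [div_eq_mul_inv]
  have hU : IsOpen {s : ℂ | 1 < s.re} := isOpen_lt continuous_const continuous_re
  have hUc : IsPreconnected {s : ℂ | 1 < s.re} := (convex_halfSpace_re_gt 1).isPreconnected
  have hKa : ∀ s : ℂ, 1 < s.re → AnalyticAt ℂ K s := fun s hs =>
    Finset.analyticAt_fun_sum _ fun i _ => analyticAt_const.mul
      (((hFd' i).analyticAt s).deriv.div ((hFd' i).analyticAt s) (hFne' i s hs))
  have hK2 : ∀ s : ℂ, 1 < s.re → deriv (deriv K) s = 0 := fun s hs => by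
    have := iteratedDeriv_two_eq_zero hFd' hgr' hrel' fun i => hFne' i s hs
    rwa [iteratedDeriv_succ, iteratedDeriv_one] at this
  have hK1 : ∀ {s t : ℂ}, 1 < s.re → 1 < t.re → deriv K s = deriv K t := fun hs ht =>
    hU.is_const_of_deriv_eq_zero hUc
      (fun s hs => (hKa s hs).deriv.differentiableAt.differentiableWithinAt) hK2 hs ht
  have hsh : ∀ s : ℂ, 1 < s.re → 1 < (s + 2).re := fun s hs => by
    simp only [add_re, re_ofNat]
    linarith
  obtain ⟨γ, hγ⟩ := hU.exists_is_const_of_deriv_eq_zero (f := fun s => K (s + 2) - K s) hUc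
    (fun s hs => (((hKa _ (hsh s hs)).differentiableAt.hasDerivAt.comp_add_const s 2).sub
      (hKa s hs).differentiableAt.hasDerivAt).differentiableAt.differentiableWithinAt)
    (fun s hs => by
      have h1 := ((hKa _ (hsh s hs)).differentiableAt.hasDerivAt.comp_add_const s 2).sub
        (hKa s hs).differentiableAt.hasDerivAt
      rw [hK1 (hsh s hs) hs, sub_self] at h1
      exact h1.deriv)
  let g : ℕ → ℂ := fun n => ∑ χ, c χ * (χ.primitiveCharacter n * Λ n)
  have hgs : ∀ s : ℂ, 1 < s.re → LSeriesSummable g s ∧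
      LSeries g s = ∑ χ, c χ * LSeries (fun n => χ.primitiveCharacter n * Λ n) s := by
    intro s hs
    have e : g = ∑ χ : DirichletCharacter ℂ q,
        c χ • fun n : ℕ => χ.primitiveCharacter n * (Λ n : ℂ) := by
      funext n
      simp [g]
    have hs' : ∀ χ : DirichletCharacter ℂ q, LSeriesSummable
        (c χ • fun n : ℕ => χ.primitiveCharacter n * (Λ n : ℂ)) s := fun χ =>
      (LSeriesSummable_twist_vonMangoldt χ.primitiveCharacter hs).smul _
    rw [e]
    refine ⟨LSeriesSummable.sum fun χ _ => hs' χ, ?_⟩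
    rw [LSeries_sum fun χ _ => hs' χ]
    simp_rw [LSeries_smul]
  have hga : LSeries.abscissaOfAbsConv g < ⊤ :=
    (hgs 2 (by simp)).1.abscissaOfAbsConv_le.trans_lt (EReal.coe_lt_top _)
  let A : ℂ := ∑ χ, if χ.primitiveCharacter.Even then c χ else 0
  let B : ℂ := ∑ χ, if χ.primitiveCharacter.Even then 0 else c χ
  have hid : ∀ s : ℂ, 1 < s.re → LSeries g s - LSeries g (s + 2) =
      γ - A / s - B / (s + 1) + R / (s + 2 - 1 / 2) - R / (s - 1 / 2) := by
    intro s hs
    have h1 : K (s + 2) - K s = γ := hγ s hs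
    have h2 : LSeries g s - LSeries g (s + 2) = ∑ χ, c χ * logDeriv (F χ) (s + 2) -
        ∑ χ, c χ * logDeriv (F χ) s - A / s - B / (s + 1) := by
      rw [(hgs s hs).2, (hgs _ (hsh s hs)).2]
      simp only [A, B, Finset.sum_div, ← Finset.sum_sub_distrib]
      refine Finset.sum_congr rfl fun χ _ => ?_
      rcases eq_or_ne χ 1 with rfl | hχ
      · simp [hc]
      · rw [hF χ hχ, logDeriv_completed (primitive_ne_one hχ) hs,
          logDeriv_completed (primitive_ne_one hχ) (hsh s hs),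
          logDeriv_gammaFactor_add_two _ (by linarith)]
        split_ifs <;> ring
    rw [h2, ← h1, hKe, hKe]
    ring
  have hg0 : g 0 = 0 := by simp [g]
  have hg1 : g 1 = 0 := by simp [g]
  let a₀ : Polynomial ℂ := Polynomial.X
  let a₁ : Polynomial ℂ := Polynomial.X + Polynomial.C 1
  let a₂ : Polynomial ℂ := Polynomial.X + Polynomial.C (2 - 1 / 2)
  let a₃ : Polynomial ℂ := Polynomial.X - Polynomial.C (1 / 2)
  let p : Polynomial ℂ := Polynomial.C γ * (a₀ * a₁ * a₂ * a₃) - Polynomial.C A * (a₁ * a₂ * a₃) -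
    Polynomial.C B * (a₀ * a₂ * a₃) + Polynomial.C R * (a₀ * a₁ * a₃) -
    Polynomial.C R * (a₀ * a₁ * a₂)
  have hp : ∀ s : ℂ, 1 < s.re → (a₀ * a₁ * a₂ * a₃).eval s ≠ 0 ∧
      (a₀ * a₁ * a₂ * a₃).eval s * (LSeries g s - LSeries g (s + 2)) = p.eval s := by
    intro s hs
    have b0 : s ≠ 0 := by
      rintro rfl
      norm_num at hs
    have b1 : s + 1 ≠ 0 := fun e => by
      have := congrArg re e
      simp only [add_re, one_re, zero_re] at this
      linarith
    have b2 := hhalf _ (hsh s hs)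
    have b3 := hhalf s hs
    have e2 : s + (2 - 1 / 2) = s + 2 - 1 / 2 := by ring
    rw [hid s hs]
    simp only [p, a₀, a₁, a₂, a₃, Polynomial.eval_mul, Polynomial.eval_add, Polynomial.eval_sub,
      Polynomial.eval_X, Polynomial.eval_C, e2]
    refine ⟨mul_ne_zero (mul_ne_zero (mul_ne_zero b0 b1) b2) b3, ?_⟩
    generalize s + 2 - 1 / 2 = u at b2 ⊢
    generalize s - 1 / 2 = v at b3 ⊢
    generalize s + 1 = w at b1 ⊢
    field_simp
  have hlim := (tendsto_poly_mul_LSeries hg0 hg1 hga 0 (a₀ * a₁ * a₂ * a₃)).sub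
    (tendsto_poly_mul_LSeries hg0 hg1 hga 2 (a₀ * a₁ * a₂ * a₃))
  rw [sub_zero] at hlim
  have hp0 : p = 0 := poly_limit (hlim.congr' (by
    filter_upwards [eventually_gt_atTop 1] with y hy
    rw [← mul_sub, add_zero, ofReal_add, ofReal_ofNat, (hp y (by simpa using hy)).2]))
  have hper : ∀ y : ℝ, 1 < y → ∀ k : ℕ, LSeries g ((y + 2 * k : ℝ) : ℂ) = LSeries g y := by
    intro y hy k
    induction k with
    | zero => simp
    | succ k ih =>
      obtain ⟨h1, h2⟩ := hp ((y + 2 * k : ℝ) : ℂ) (by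
        rw [ofReal_re]
        have : (0 : ℝ) ≤ k := Nat.cast_nonneg k
        linarith)
      rw [hp0, Polynomial.eval_zero, ih] at h2
      have h3 := sub_eq_zero.1 ((mul_eq_zero.1 h2).resolve_left h1)
      rw [h3]
      congr 1
      push_cast
      ring
  have hzero : (fun y : ℝ => LSeries g y) =ᶠ[atTop] 0 := by
    filter_upwards [eventually_gt_atTop 1] with y hy
    have h1 : Tendsto (fun k : ℕ => y + 2 * (k : ℝ)) atTop atTop :=
      tendsto_atTop_add_const_left _ _ (tendsto_natCast_atTop_atTop.const_mul_atTop two_pos)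
    have h2 := (LSeries.tendsto_atTop hga).comp h1
    rw [hg1] at h2
    have h3 : ((fun x : ℝ => LSeries g x) ∘ fun k : ℕ => y + 2 * (k : ℝ)) =
        fun _ => LSeries g y := funext fun k => hper y hy k
    rw [h3] at h2
    exact tendsto_nhds_unique tendsto_const_nhds h2
  have hg := (LSeries_eventually_eq_zero_iff'.1 hzero).resolve_right hga.ne
  clear hp hp0
  clear_value p
  clear p
  obtain ⟨p, -, hp, hpx⟩ := Nat.forall_exists_prime_gt_and_eq_mod hx 0
  have h1 := hg p hp.ne_zero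
  have hcop : IsCoprime (p : ℤ) (q : ℤ) := by
    rw [Nat.isCoprime_iff_coprime, ← ZMod.isUnit_iff_coprime, hpx]
    exact hx
  have h2 : ∀ χ : DirichletCharacter ℂ q, χ.primitiveCharacter p = χ x := fun χ => by
    have := χ.primitiveCharacter_apply_of_isCoprime hcop
    simpa [hpx] using this
  simp only [g, h2, ← mul_assoc, ← Finset.sum_mul] at h1
  refine (mul_eq_zero.1 h1).resolve_right ?_
  exact_mod_cast vonMangoldt_ne_zero_iff.2 hp.isPrimePow

end Pool.Agent.Lib.MP_c04f8f_nt
end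

-- part Pool.Agent.Lib.MP_c04f8f_nt.Series
section

/-!
The derivative of the prime Dirichlet series in terms of logarithmic derivatives of L-functions.
-/

set_option autoImplicit false

open Filter Topology Set Metric Complex DirichletCharacter ArithmeticFunction

namespace Pool.Agent.Lib.MP_c04f8f_nt

open scoped Classical in
theorem summable_high_powers :
    Summable fun n : ℕ => (if n.Prime ∨ IsSquare n then 0 else Λ n) / (n : ℝ) ^ (2 / 5 : ℝ) := by
  let g : Nat.Primes × ℕ → ℕ := fun x => (x.1 : ℕ) ^ (x.2 + 3)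
  have hg : Function.Injective g := by
    rintro ⟨p, k⟩ ⟨p', k'⟩ h
    have := Nat.Prime.pow_inj (m := k + 2) (n := k' + 2) p.2 p'.2 h
    exact Prod.ext (Subtype.ext this.1) (by simpa using this.2)
  rw [← hg.summable_iff]
  · have h1 : Summable fun p : Nat.Primes => 10 * (p : ℝ) ^ (-(11 / 10) : ℝ) :=
      (Nat.Primes.summable_rpow.2 (by norm_num)).mul_left _
    have hr : (2 : ℝ) ^ (-(2 / 5) : ℝ) < 1 :=
      Real.rpow_lt_one_of_one_lt_of_neg one_lt_two (by norm_num)
    have h2 : Summable fun k : ℕ => ((2 : ℝ) ^ (-(2 / 5) : ℝ)) ^ k :=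
      summable_geometric_of_lt_one (by positivity) hr
    refine (h1.mul_of_nonneg h2 (fun p => by positivity) (fun k => by positivity)).of_nonneg_of_le
      (fun x => ?_) (fun x => ?_)
    · simp only [Function.comp]
      refine div_nonneg ?_ (by positivity)
      split_ifs
      · exact le_rfl
      · exact vonMangoldt_nonneg
    · obtain ⟨p, k⟩ := x
      have hp0 : (0 : ℝ) < p := by exact_mod_cast p.2.pos
      have hp2 : (2 : ℝ) ≤ p := by exact_mod_cast p.2.two_le
      have a1 : (if (g (p, k)).Prime ∨ IsSquare (g (p, k)) then 0 else Λ (g (p, k))) ≤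
          10 * (p : ℝ) ^ (1 / 10 : ℝ) := by
        split_ifs
        · positivity
        · simp only [g]
          rw [vonMangoldt_apply_pow (by omega), vonMangoldt_apply_prime p.2]
          have := Real.log_le_rpow_div hp0.le (show (0 : ℝ) < 1 / 10 by norm_num)
          linarith
      have a2 : ((g (p, k) : ℕ) : ℝ) ^ (2 / 5 : ℝ) =
          (p : ℝ) ^ (6 / 5 : ℝ) * ((p : ℝ) ^ (2 / 5 : ℝ)) ^ k := by
        simp only [g]
        push_cast
        rw [← Real.rpow_natCast, ← Real.rpow_mul hp0.le, ← Real.rpow_natCast,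
          ← Real.rpow_mul hp0.le, ← Real.rpow_add hp0]
        congr 1
        push_cast
        ring
      simp only [Function.comp]
      rw [a2, div_le_iff₀ (by positivity)]
      refine a1.trans ?_
      have a3 : 1 ≤ ((2 : ℝ) ^ (-(2 / 5) : ℝ)) ^ k * ((p : ℝ) ^ (2 / 5 : ℝ)) ^ k := by
        rw [← mul_pow]
        refine one_le_pow₀ ?_
        rw [Real.rpow_neg zero_le_two, ← div_eq_inv_mul, one_le_div (by positivity)]
        exact Real.rpow_le_rpow zero_le_two hp2 (by norm_num)
      have a4 : (p : ℝ) ^ (1 / 10 : ℝ) = (p : ℝ) ^ (-(11 / 10) : ℝ) * (p : ℝ) ^ (6 / 5 : ℝ) := by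
        rw [← Real.rpow_add hp0]
        norm_num
      rw [a4]
      have a5 : 0 ≤ 10 * ((p : ℝ) ^ (-(11 / 10) : ℝ) * (p : ℝ) ^ (6 / 5 : ℝ)) := by positivity
      nlinarith
  · intro n hn
    split_ifs with h
    · simp
    · rw [div_eq_zero_iff]
      left
      rw [vonMangoldt_eq_zero_iff]
      intro hpp
      obtain ⟨p, k, hp, hk, rfl⟩ := (isPrimePow_nat_iff _).1 hpp
      push Not at h
      have h1 : k ≠ 1 := fun e => h.1 (by simpa [e] using hp)
      have h2 : k ≠ 2 := fun e => h.2 ⟨p, by rw [e, sq]⟩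
      exact hn ⟨(⟨p, hp⟩, k - 3), by simp only [g]; congr 1; omega⟩

variable {q : ℕ} [NeZero q]

/-- The function on residues with Fourier coefficients `c`. -/
noncomputable def Phi (c : DirichletCharacter ℂ q → ℂ) (x : ZMod q) : ℂ := ∑ χ, c χ * χ x

/-- Its restriction to the primes. -/
noncomputable def dP (c : DirichletCharacter ℂ q → ℂ) (n : ℕ) : ℂ :=
  if n.Prime then Phi c n else 0

omit [NeZero q] in
theorem norm_Phi_le (c : DirichletCharacter ℂ q → ℂ) (x : ZMod q) : ‖Phi c x‖ ≤ ∑ χ, ‖c χ‖ := by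
  refine (norm_sum_le _ _).trans (Finset.sum_le_sum fun χ _ => ?_)
  rw [norm_mul]
  exact mul_le_of_le_one_right (norm_nonneg _) (χ.norm_le_one x)

omit [NeZero q] in
theorem norm_dP_le (c : DirichletCharacter ℂ q → ℂ) (n : ℕ) : ‖dP c n‖ ≤ ∑ χ, ‖c χ‖ := by
  unfold dP
  split_ifs
  · exact norm_Phi_le c _
  · rw [norm_zero]
    positivity

omit [NeZero q] in
theorem abscissa_dP (c : DirichletCharacter ℂ q → ℂ) : LSeries.abscissaOfAbsConv (dP c) ≤ 1 :=
  LSeries.abscissaOfAbsConv_le_of_le_const ⟨_, fun n _ => norm_dP_le c n⟩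

theorem LSeries_comb {ι : Type*} [Fintype ι] (c : ι → ℂ) (ψ : ι → DirichletCharacter ℂ q)
    {s : ℂ} (hs : 1 < s.re) :
    LSeriesSummable (fun n => (∑ i, c i * ψ i n) * Λ n) s ∧
      LSeries (fun n => (∑ i, c i * ψ i n) * Λ n) s = -∑ i, c i * logDeriv (LFunction (ψ i)) s := by
  have e : (fun n : ℕ => (∑ i, c i * ψ i n) * (Λ n : ℂ)) =
      ∑ i, c i • fun n : ℕ => ψ i n * (Λ n : ℂ) := by
    funext n
    simp [Finset.sum_mul, mul_assoc]
  have hs' : ∀ i, LSeriesSummable (c i • fun n : ℕ => ψ i n * (Λ n : ℂ)) s := fun i =>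
    (LSeriesSummable_twist_vonMangoldt (ψ i) hs).smul _
  rw [e]
  refine ⟨LSeriesSummable.sum fun i _ => hs' i, ?_⟩
  rw [LSeries_sum fun i _ => hs' i, ← Finset.sum_neg_distrib]
  refine Finset.sum_congr rfl fun i _ => ?_
  rw [LSeries_smul, logDeriv_LFunction _ hs]
  ring

theorem exists_decomposition (c : DirichletCharacter ℂ q → ℂ) :
    ∃ E : ℂ → ℂ, (∀ s : ℂ, 2 / 5 < s.re → AnalyticAt ℂ E s) ∧ ∀ s : ℂ, 1 < s.re →
      deriv (LSeries (dP c)) s = ∑ χ, c χ * logDeriv (LFunction χ) s -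
        ∑ χ, c χ * logDeriv (LFunction (χ ^ 2)) (2 * s) + E s := by
  classical
  let e : ℕ → ℂ := fun n => if n.Prime ∨ IsSquare n then 0 else Phi c n * Λ n
  let w₂ : ℕ → ℂ := fun n => if IsSquare n then Phi c n * Λ n else 0
  have he : LSeriesSummable e ((2 / 5 : ℝ) : ℂ) := by
    refine (summable_high_powers.mul_left (∑ χ, ‖c χ‖)).of_norm_bounded fun n => ?_
    rw [LSeries.norm_term_eq, ofReal_re, ← mul_div_assoc]
    have h1 : ‖e n‖ ≤ (∑ χ, ‖c χ‖) * if n.Prime ∨ IsSquare n then 0 else Λ n := by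
      simp only [e]
      split_ifs
      · simp
      · rw [norm_mul, norm_real, Real.norm_eq_abs, abs_of_nonneg vonMangoldt_nonneg]
        exact mul_le_mul_of_nonneg_right (norm_Phi_le c _) vonMangoldt_nonneg
    by_cases h0 : n = 0
    · rw [if_pos h0]
      exact div_nonneg ((norm_nonneg _).trans h1) (by positivity)
    · rw [if_neg h0]
      exact div_le_div_of_nonneg_right h1 (by positivity)
  have hab : ∀ s : ℂ, 2 / 5 < s.re → LSeries.abscissaOfAbsConv e < s.re := fun s hs =>
    he.abscissaOfAbsConv_le.trans_lt (by rw [ofReal_re]; exact_mod_cast hs)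
  refine ⟨LSeries e, fun s hs => LSeries_analyticOnNhd e s (hab s hs), fun s hs => ?_⟩
  have hd : LSeries.abscissaOfAbsConv (dP c) < s.re :=
    (abscissa_dP c).trans_lt (by exact_mod_cast hs)
  obtain ⟨hv1, hv2⟩ := LSeries_comb c (fun χ => χ) hs
  obtain ⟨-, hw2⟩ := LSeries_comb c (fun χ => χ ^ 2) (s := 2 * s) (by simp; linarith)
  have hw₂s : LSeriesSummable w₂ s := by
    refine Summable.of_norm_bounded hv1.norm fun n => LSeries.norm_term_le _ ?_
    simp only [w₂]
    split_ifs
    · exact le_rfl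
    · rw [norm_zero]
      exact norm_nonneg _
  have hsq : LSeries w₂ s = LSeries (fun n => (∑ χ, c χ * (χ ^ 2) n) * Λ n) (2 * s) := by
    have hinj : Function.Injective fun m : ℕ => m ^ 2 := Nat.pow_left_injective two_ne_zero
    rw [LSeries, LSeries, ← hinj.tsum_eq]
    · refine tsum_congr fun m => ?_
      rcases eq_or_ne m 0 with rfl | hm
      · simp
      · rw [LSeries.term_of_ne_zero (pow_ne_zero 2 hm), LSeries.term_of_ne_zero hm]
        simp only [w₂]
        rw [if_pos ⟨m, sq m⟩, vonMangoldt_apply_pow two_ne_zero]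
        congr 1
        · congr 1
          refine Finset.sum_congr rfl fun χ _ => ?_
          rw [MulChar.pow_apply' _ two_ne_zero, Nat.cast_pow, map_pow]
        · rw [Nat.cast_pow, ← natCast_cpow_natCast_mul]
          norm_num
    · intro n hn
      by_contra h
      apply hn
      have : ¬ IsSquare n := fun ⟨m, hm⟩ => h ⟨m, by rw [hm]; exact sq m⟩
      simp [LSeries.term_def, w₂, this]
  have hsplit : (fun n : ℕ => (∑ χ, c χ * χ n) * (Λ n : ℂ)) = LSeries.logMul (dP c) + w₂ + e := by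
    funext n
    simp only [Pi.add_apply, LSeries.logMul, dP, w₂, e]
    by_cases h1 : n.Prime
    · rw [if_pos h1, if_neg h1.prime.not_isSquare, if_pos (Or.inl h1), vonMangoldt_apply_prime h1,
        natCast_log, Phi]
      ring
    · by_cases h2 : IsSquare n
      · simp [h1, h2, Phi]
      · simp [h1, h2, Phi]
  have hlm := LSeriesSummable_logMul_of_lt_re hd
  have hes := LSeriesSummable_of_abscissaOfAbsConv_lt_re (hab s (by linarith))
  rw [hsplit, LSeries_add (hlm.add hw₂s) hes, LSeries_add hlm hw₂s, hsq, hw2] at hv2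
  rw [LSeries_deriv hd]
  linear_combination -hv2

end Pool.Agent.Lib.MP_c04f8f_nt
end
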